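import Pool.Agent.L0h98.EV.Res

/-!
# Project EV: the abstract induction
-/

set_option autoImplicit false
set_option linter.unusedSectionVars false

namespace Pool.Agent.L0h98.EV

open Pool.Agent.Y698 Pool.Agent.Y698.SG Pool.Agent.L0h4.TW Pool.Agent.L0h23.ED Pool.Agent.L0h1.EV
open H667R3 Pool.Agent.W192.HK Pool.Agent.TH936.CM Pool.Agent.TH936.PU

variable {L : PeriodPair} {Ω : ℂ} {Γ : Type} [LinearOrderedCommGroupWithZero Γ]
  {v : Valuation ℂ Γ} {F F' : ℂ → ℂ} {ε : RR → ℂ} {s : ℂ}

lemma kp_empty {ι : Type} [DecidableEq ι] (l : ι → ZMod 2) (m : ι → ι → ZMod 2) :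
    kp l m ∅ = 0 := Finset.sum_empty

lemma Ga_empty {ι : Type} (F : ℂ → ℂ) (hL : IsLat L RR Ω) (hF : DF L Ω F ε s) (π : ι → RR) :
    Ga F Ω π ∅ = F 0 := by
  unfold Ga
  simp only [Finset.prod_empty]
  have f1 := fin_quot (one_ne_zero (α := RR))
  let _ : Fintype (RR ⧸ sp (1 : RR)) := Fintype.ofFinite _
  rw [Sv_eq]
  have hsp : sp (1 : RR) = ⊤ := Ideal.span_singleton_one
  have hs : Subsingleton (RR ⧸ sp (1 : RR)) := Ideal.Quotient.subsingleton_iff.2 hsp
  have h1 : ∀ x : RR ⧸ sp (1 : RR), x = 0 := fun x => Subsingleton.elim _ _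
  rw [Fintype.sum_subsingleton _ (0 : RR ⧸ sp (1 : RR))]
  have h2 := Sv_term hL hF (one_ne_zero (α := RR)) (φ := fun _ => 1) (fun _ _ _ => rfl)
    (x := (0 : RR ⧸ sp (1 : RR)).out) (y := 0) (by
      rw [hsp]
      exact Submodule.mem_top)
  rw [h2]
  simp

lemma F2_zero (hF : DF L Ω F ε (-1)) : F 0 = 0 := by
  have h1 := hF.par 0 ⟨1, one_ne_zero, by rw [mul_zero]; exact zero_mem _⟩
  rw [neg_zero] at h1
  linear_combination h1 / 2

/-- the difference of the two sums: first step -/
theorem stepA1 {ι : Type} [DecidableEq ι] {F1 F2 : ℂ → ℂ} (h : LD L Ω) (hv : v al < 1)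
    (h1 : DF L Ω F1 (fun _ => 1) 1) (h2 : DF L Ω F2 (fun _ => 1) (-1))
    (hC : Con v Ω F1 F2) (h0 : F1 0 = -bl / 2) {π : ι → RR} {l : ι → ZMod 2}
    {m : ι → ι → ZMod 2} {S0 : Finset ι} (hS0 : FX S0 π) (hl : ∀ i ∈ S0, l i = lam (π i))
    (hm : ∀ i ∈ S0, ∀ j ∈ S0, i ≠ j → m i j = lg (sy (π j) (π i))) :
    ∀ S ⊆ S0, S.Nonempty → Rd v ((Ga F1 Ω π S - Ga F2 Ω π S) / 2 ^ S.card) (kp l m S) := by
  have hL := h.lat
  have t2 := v_two_lt hv
  intro S
  induction S using Finset.strongInduction with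
  | H S ih =>
    intro hSS hne
    have hS := hS0.mono hSS
    have hm' : ∀ i ∈ S, ∀ j ∈ S, i ≠ j → m i j = lg (sy (π j) (π i)) :=
      fun i hi j hj => hm i (hSS hi) j (hSS hj)
    have e1 := E1 hL h1 S hS
    have e2 := E1 hL h2 S hS
    have hs := C1 hC hS hne
    rw [← e1, ← e2, ← Finset.sum_sub_distrib] at hs
    set δ : ZMod 2 := ∑ i ∈ S, if S = {i} then l i else 0 with hδ
    set T : Finset ι → ℂ := fun A =>
      (∏ i ∈ S \ A, (((π i : ℂ) * 1 - ∏ j ∈ A, sy (π j) (π i)) / 2)) *
        ((Ga F1 Ω π A - Ga F2 Ω π A) / 2 ^ A.card) with hT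
    set r : Finset ι → ZMod 2 := fun A =>
      (∏ i ∈ S \ A, (0 + ∑ j ∈ A, m i j)) * kp l m A + (if A = ∅ then δ else 0) with hr
    have hkey := ext t2 T r (D := ∑ A ∈ S.powerset, T A) (d := 0) rfl ?_ ?_ ?_
    · have e3 : T S = (Ga F1 Ω π S - Ga F2 Ω π S) / 2 ^ S.card := by
        simp only [hT, Finset.sdiff_self, Finset.prod_empty, one_mul]
      have e4 : r S = kp l m S := by
        simp only [hr, Finset.sdiff_self, Finset.prod_empty, one_mul,
          if_neg (Finset.nonempty_iff_ne_empty.1 hne), add_zero]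
      rwa [e3, e4] at hkey
    · rw [Rd.zero_iff]
      convert hs using 2
      refine Finset.sum_congr rfl fun A _ => ?_
      simp only [hT]
      ring
    · intro A hA
      rcases A.eq_empty_or_nonempty with hAe | hAne
      · subst hAe
        have e5 : T ∅ = (∏ i ∈ S, (((π i : ℂ) * 1 - 1) / 2)) * (-bl / 2) := by
          simp only [hT, Finset.sdiff_empty, Finset.prod_empty, Finset.card_empty, pow_zero,
            div_one]
          rw [Ga_empty F1 hL h1, Ga_empty F2 hL h2, h0, F2_zero h2, sub_zero]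
        have e6 : r ∅ = δ := by
          simp only [hr, kp_empty, mul_zero, zero_add, if_true]
        rw [e5, e6]
        obtain ⟨i, hi⟩ := hne
        obtain ⟨u, hu⟩ := (hS.pd i hi).n1
        have hvu := v_RR hv u
        have e7 : ((π i : ℂ) * 1 - 1) / 2 * (-bl / 2) = -(al / 2) * u := by
          rw [hu]
          push_cast
          rw [aR_coe]
          linear_combination (-al * u / 4) * al_mul_bl
        rw [← Finset.mul_prod_erase S _ hi, mul_right_comm, e7]
        by_cases hS1 : S = {i}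
        · have e8 : δ = l i := by
            rw [hδ]
            conv_lhs => rw [hS1]
            rw [Finset.sum_singleton, if_pos rfl]
          have e9 : ∏ x ∈ S.erase i, (((π x : ℂ) * 1 - 1) / 2) = 1 := by
            rw [hS1, Finset.erase_singleton, Finset.prod_empty]
          rw [e8, e9, mul_one, hl i (hSS hi)]
          -- the residue of `u`
          have hh : v (-(al / 2) - 1) < 1 := by
            have e10 : -(al / 2) - 1 = (al / 2) * (-2 + al) := by
              linear_combination (-1 / 2 : ℂ) * al_sq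
            rw [e10]
            rw [map_mul, v_half_al hv, one_mul]
            exact v_add_lt (by rw [Valuation.map_neg]; exact t2) hv
          have hh1 : Rd v (-(al / 2)) 1 := Rd.one_iff.2 hh
          have hh2 : Rd v (u : ℂ) (lam (π i)) := by
            unfold lam
            have e11 : π i - 1 = aR ^ 2 * u := by rw [hu]; ring
            by_cases hd : aR ^ 3 ∣ π i - 1
            · rw [if_pos hd, Rd.zero_iff]
              obtain ⟨c, hc⟩ := hd
              have : u = aR * c := by
                apply mul_left_cancel₀ (pow_ne_zero 2 aR_pr.ne_zero)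
                rw [← e11, hc]
                ring
              rw [this]
              push_cast
              rw [aR_coe]
              exact v_mul_lt' hv (v_RR hv c)
            · rw [if_neg hd, Rd.one_iff]
              have h5 : ¬ aR ∣ u := by
                rintro ⟨c, hc⟩
                apply hd
                rw [e11, hc]
                exact ⟨c, by ring⟩
              have h6 : aR ∣ u - 1 := by
                have e12 : u = ((cX u : ℤ) : RR) + ((cY u : ℤ) : RR) * aR := by
                  apply Subtype.ext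
                  push_cast
                  exact co u
                rcases Int.even_or_odd' (cX u) with ⟨c, hc | hc⟩
                · exfalso
                  apply h5
                  rw [e12, hc]
                  push_cast
                  exact dvd_add (Dvd.dvd.mul_right aR_dvd _) (Dvd.intro_left _ rfl)
                · rw [e12, hc]
                  push_cast
                  have e13 : 2 * (c : RR) + 1 + (cY u : RR) * aR - 1 =
                    2 * (c : RR) + (cY u : RR) * aR := by ring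
                  rw [e13]
                  exact dvd_add (Dvd.dvd.mul_right aR_dvd _) (Dvd.intro_left _ rfl)
              obtain ⟨c, hc⟩ := h6
              have e14 : (u : ℂ) - 1 = al * c := by
                have := congrArg (fun z : RR => (z : ℂ)) hc
                push_cast at this
                rw [aR_coe] at this
                exact this
              rw [e14]
              exact v_mul_lt' hv (v_RR hv c)
          have := Rd.mul hh1 hh2
          rwa [one_mul] at this
        · have e8 : δ = 0 := by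
            rw [hδ]
            refine Finset.sum_eq_zero fun j hj => if_neg fun h => hS1 ?_
            rw [h] at hi ⊢
            rw [Finset.mem_singleton.1 hi]
          rw [e8, Rd.zero_iff]
          obtain ⟨j, hj, hji⟩ : ∃ j ∈ S, j ≠ i := by
            by_contra hcon
            push Not at hcon
            exact hS1 (Finset.eq_singleton_iff_unique_mem.2 ⟨hi, hcon⟩)
          have hx : v (-(al / 2) * u) ≤ 1 := by
            rw [map_mul, Valuation.map_neg, v_half_al hv, one_mul]
            exact hvu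
          have hy : Rd v (∏ x ∈ S.erase i, (((π x : ℂ) * 1 - 1) / 2))
              (∏ x ∈ S.erase i, (0 : ZMod 2)) := by
            refine Rd.prod fun x hx => ?_
            have := (EU_one hv).eu (π x) 1 (hS.pd x (Finset.mem_of_mem_erase hx)).n1 (Or.inl rfl)
            rwa [lg_one, add_zero] at this
          have hz : ∏ x ∈ S.erase i, (0 : ZMod 2) = 0 :=
            Finset.prod_eq_zero (i := j) (Finset.mem_erase.2 ⟨hji, hj⟩) rfl
          rw [hz, Rd.zero_iff] at hy
          rw [mul_comm]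
          exact v_mul_lt' hy hx
      · have e6 : r A = (∏ i ∈ S \ A, (0 + ∑ j ∈ A, m i j)) * kp l m A := by
          simp only [hr, if_neg (Finset.nonempty_iff_ne_empty.1 hAne), add_zero]
        rw [e6]
        exact Rd.mul (R1 (EU_one hv) hS hm' (c := fun _ => 0) (fun _ _ => rfl) hA.1)
          (ih A hA (hA.1.trans hSS) hAne)
    · simp only [hr]
      rw [Finset.sum_add_distrib, Finset.sum_ite_eq', if_pos (Finset.empty_mem_powerset S)]
      have := t_I1 ι l m S hne
      rw [← hδ] at this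
      have e7 : ∑ A ∈ S.powerset, (∏ i ∈ S \ A, (0 + ∑ j ∈ A, m i j)) * kp l m A = δ := this
      rw [e7]
      exact two_self δ

/-- **S_A** -/
theorem t_A : S_A := by
  intro L Ω Γ _ v h hv F1 F2 h1 h2 hC h0 k ψ hk hψ ι _ π b l m S0 hS0 hb hlb hl hm hmb hbm
  have hL := h.lat
  have t2 := v_two_lt hv
  have hA1 := stepA1 h hv h1 h2 hC h0 hS0 hl hm
  intro S
  induction S using Finset.strongInduction with
  | H S ih =>
    intro hSS
    have hS := hS0.mono hSS
    have hm' : ∀ i ∈ S, ∀ j ∈ S, i ≠ j → m i j = lg (sy (π j) (π i)) :=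
      fun i hi j hj => hm i (hSS hi) j (hSS hj)
    have e1 := E2 hL h1 (by omega : 1 ≤ k) hψ S hS
    have e2 := E2 hL h2 (by omega : 1 ≤ k) hψ S hS
    have hs := C2 hC hS hk hψ
    set D2 : ℂ := Sv F1 Ω (bN ^ k * ∏ i ∈ S, π i) (Hf ψ π S) -
      Sv F2 Ω (bN ^ k * ∏ i ∈ S, π i) (Hf ψ π S) with hD2
    set T : Finset ι → ℂ := fun A =>
      (∏ i ∈ S \ A, (((π i : ℂ) * 1 - ψ (π i) * ∏ j ∈ A, sy (π j) (π i)) / 2)) *
        ((Gb F1 Ω k ψ π A - Gb F2 Ω k ψ π A) / 2 ^ (A.card + 1)) with hT
    set T' : Finset ι → ℂ := fun A =>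
      (∏ i ∈ S \ A, (((π i : ℂ) * 1 - ∏ j ∈ A, sy (π j) (π i)) / 2)) *
      ((bN * 1) ^ (k - 1) * (((bN * 1 - ∏ j ∈ A, sy (π j) bN) / 2) *
        ((Ga F1 Ω π A - Ga F2 Ω π A) / 2 ^ A.card))) with hT'
    have es : ∑ A ∈ S.powerset, T A = D2 + -∑ A ∈ S.powerset, T' A := by
      have e5 : ∑ A ∈ S.powerset, T A + ∑ A ∈ S.powerset, T' A = D2 := by
        rw [hD2, ← e1, ← e2, add_sub_add_comm, ← Finset.sum_sub_distrib, ← Finset.sum_sub_distrib]
        congr 1
        · refine Finset.sum_congr rfl fun A _ => ?_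
          simp only [hT]
          ring
        · refine Finset.sum_congr rfl fun A _ => ?_
          simp only [hT']
          ring
      rw [← e5]
      ring
    set r : Finset ι → ZMod 2 := fun A =>
      (∏ i ∈ S \ A, (m i b + ∑ j ∈ A, m i j)) * kp l m (insert b A) with hr
    set r' : Finset ι → ZMod 2 := fun A =>
      (∏ i ∈ S \ A, (0 + ∑ j ∈ A, m i j)) * ((∑ j ∈ A, m b j) * kp l m A) +
        (if A = ∅ then (if S = ∅ then 1 else 0) else 0) with hr'
    have hkey := ext t2 T r (d := 0 + ∑ A ∈ S.powerset, r' A) es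
      (Rd.add t2 (Rd.zero_iff.2 hs) (Rd.neg t2 (Rd.sum t2 ?_))) ?_ ?_
    · have e3 : T S = (Gb F1 Ω k ψ π S - Gb F2 Ω k ψ π S) / 2 ^ (S.card + 1) := by
        simp only [hT, Finset.sdiff_self, Finset.prod_empty, one_mul]
      have e4 : r S = kp l m (insert b S) := by
        simp only [hr, Finset.sdiff_self, Finset.prod_empty, one_mul]
      rwa [e3, e4] at hkey
    · intro A hA
      rw [Finset.mem_powerset] at hA
      rcases A.eq_empty_or_nonempty with hAe | hAne
      · subst hAe
        have e6 : r' ∅ = if S = ∅ then 1 else 0 := by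
          simp only [hr', kp_empty, mul_zero, zero_add, if_true]
        have e5 : T' ∅ = (∏ i ∈ S, (((π i : ℂ) * 1 - 1) / 2)) *
            ((bN * 1) ^ (k - 1) * -(al / 2)) := by
          simp only [hT', Finset.sdiff_empty, Finset.prod_empty, Finset.card_empty, pow_zero,
            div_one]
          rw [Ga_empty F1 hL h1, Ga_empty F2 hL h2, h0, F2_zero h2, sub_zero]
          congr 2
          rw [bN_coe]
          linear_combination (bl / 4) * al_sq - al / 4 * al_mul_bl
        rw [e5, e6]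
        have hh1 : Rd v (((bN : ℂ) * 1) ^ (k - 1) * -(al / 2)) 1 := by
          have hh : v (-(al / 2) - 1) < 1 := by
            have e10 : -(al / 2) - 1 = (al / 2) * (-2 + al) := by
              linear_combination (-1 / 2 : ℂ) * al_sq
            rw [e10]
            rw [map_mul, v_half_al hv, one_mul]
            exact v_add_lt (by rw [Valuation.map_neg]; exact t2) hv
          have := Rd.mul (Rd.pow1 ((EU_one hv).pw t2) (k - 1)) (Rd.one_iff.2 hh)
          rwa [one_mul] at this
        have hh2 : Rd v (∏ x ∈ S, (((π x : ℂ) * 1 - 1) / 2)) (∏ x ∈ S, (0 : ZMod 2)) := by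
          refine Rd.prod fun x hx => ?_
          have := (EU_one hv).eu (π x) 1 (hS.pd x hx).n1 (Or.inl rfl)
          rwa [lg_one, add_zero] at this
        have hh3 := Rd.mul hh2 hh1
        rw [mul_one (∏ x ∈ S, (0 : ZMod 2))] at hh3
        by_cases hSe : S = ∅
        · rw [if_pos hSe]
          have hz : ∏ x ∈ S, (0 : ZMod 2) = 1 := by rw [hSe, Finset.prod_empty]
          rwa [hz] at hh3
        · rw [if_neg hSe]
          obtain ⟨j, hj⟩ := Finset.nonempty_iff_ne_empty.2 hSe
          have hz : ∏ x ∈ S, (0 : ZMod 2) = 0 := Finset.prod_eq_zero (i := j) hj rfl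
          rwa [hz] at hh3
      · have e6 : r' A = (∏ i ∈ S \ A, (0 + ∑ j ∈ A, m i j)) *
            ((0 + ∑ j ∈ A, m b j) * kp l m A) := by
          simp only [hr', if_neg (Finset.nonempty_iff_ne_empty.1 hAne), add_zero, zero_add]
        rw [e6]
        exact Rd.mul (R1 (EU_one hv) hS hm' (c := fun _ => 0) (fun _ _ => rfl) hA)
          (R3 t2 (EU_one hv) (hS.mono hA) (fun i hi => hbm i (hSS (hA hi)))
            (hA1 A (hA.trans hSS) hAne) k)
    · intro A hA
      refine Rd.mul (R2 (EU_one hv) hS hm' hψ (c := fun i => m i b) (fun i hi => ?_) hA.1)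
          (ih A hA (hA.1.trans hSS))
      rw [zero_add]
      exact (hmb i (hSS hi)).symm
    · have h3 := t_I3 ι l (fun j => m b j) (fun i => m i b) m S b (fun h => hb (hSS h)) hlb
        (fun _ _ => rfl) (fun _ _ => rfl)
      have e7 : ∑ A ∈ S.powerset, r A = Phi (fun i => m i b) m (fun A => kp l m (insert b A)) S :=
        rfl
      have e8 : ∑ A ∈ S.powerset, r' A =
          Phi 0 m (fun A => (∑ j ∈ A, m b j) * kp l m A) S + (if S = ∅ then 1 else 0) := by
        simp only [hr']
        rw [Finset.sum_add_distrib, Finset.sum_ite_eq', if_pos (Finset.empty_mem_powerset S)]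
        rfl
      rw [e7, e8, zero_add, ← h3]
      linear_combination -(two_self (Phi 0 m (fun A => (∑ j ∈ A, m b j) * kp l m A) S))

/-- the weighted sums without `ψ` for `χ₈` -/
theorem stepB1 {ι : Type} [DecidableEq ι] {F3 F2 : ℂ → ℂ} (h : LD L Ω) (hv : v al < 1)
    (h1 : DF L Ω F3 sgl s) (h2 : DF L Ω F2 (fun _ => 1) (-1))
    (hC : Con v Ω F3 F2) {π : ι → RR} {b p : ι} {n l : ι → ZMod 2}
    {m : ι → ι → ZMod 2} {S0 : Finset ι} (hS0 : FX S0 π) (hp : p ∉ S0) (hnp : n p = n b)
    (h0 : Rd v (F3 0) (n b)) (hl : ∀ i ∈ S0, l i = lam (π i))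
    (hm : ∀ i ∈ S0, ∀ j ∈ S0, i ≠ j → m i j = lg (sy (π j) (π i)))
    (hrec : ∀ i ∈ S0, ∀ j ∈ S0, i ≠ j → m i j + m j i = n i * n j)
    (hmp : ∀ i ∈ S0, m i p = l i) (hpm : ∀ i ∈ S0, m p i = l i + n p * n i)
    (hG : ∀ A ⊆ S0, A.Nonempty → Rd v (Ga F2 Ω π A / 2 ^ A.card)
      ((1 + ∑ j ∈ A, (l j + n j)) * gd n m A)) :
    ∀ S ⊆ S0, Rd v (Ga F3 Ω π S / 2 ^ S.card) (gd n m (insert p S)) := by
  have hL := h.lat
  have t2 := v_two_lt hv
  intro S
  induction S using Finset.strongInduction with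
  | H S ih =>
    intro hSS
    rcases S.eq_empty_or_nonempty with hSe | hne
    · subst hSe
      rw [Ga_empty F3 hL h1, Finset.card_empty, pow_zero, div_one]
      have e1 : gd n m (insert p ∅) = n p := by
        have h3 := GI (fun _ => 0) n m (insert p (∅ : Finset ι))
        rw [Phi_insert _ _ _ (Finset.notMem_empty p)] at h3
        unfold Phi at h3
        simpa using h3
      rw [e1, hnp]
      exact h0
    have hS := hS0.mono hSS
    have hm' : ∀ i ∈ S, ∀ j ∈ S, i ≠ j → m i j = lg (sy (π j) (π i)) :=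
      fun i hi j hj => hm i (hSS hi) j (hSS hj)
    have e1 := E1 hL h1 S hS
    have e2 := E1 hL h2 S hS
    have hs := C1 hC hS hne
    set T : Finset ι → ℂ := fun A =>
      (∏ i ∈ S \ A, (((π i : ℂ) * sgl (π i) - ∏ j ∈ A, sy (π j) (π i)) / 2)) *
        (Ga F3 Ω π A / 2 ^ A.card) with hT
    set r : Finset ι → ZMod 2 := fun A =>
      (∏ i ∈ S \ A, (l i + ∑ j ∈ A, m i j)) * gd n m (insert p A) with hr
    have hkey := ext t2 T r (d := 0 + ∑ A ∈ S.powerset, (∏ i ∈ S \ A, (0 + ∑ j ∈ A, m i j)) *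
      ((1 + ∑ j ∈ A, (l j + n j)) * gd n m A)) e1 ?_ ?_ ?_
    · have e3 : T S = Ga F3 Ω π S / 2 ^ S.card := by
        simp only [hT, Finset.sdiff_self, Finset.prod_empty, one_mul]
      have e4 : r S = gd n m (insert p S) := by
        simp only [hr, Finset.sdiff_self, Finset.prod_empty, one_mul]
      rwa [e3, e4] at hkey
    · have e5 : Sv F3 Ω (∏ i ∈ S, π i) (fun m => ∏ i ∈ S, hc (π i) m) =
          (Sv F3 Ω (∏ i ∈ S, π i) (fun m => ∏ i ∈ S, hc (π i) m) -
          Sv F2 Ω (∏ i ∈ S, π i) (fun m => ∏ i ∈ S, hc (π i) m)) +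
          Sv F2 Ω (∏ i ∈ S, π i) (fun m => ∏ i ∈ S, hc (π i) m) := by ring
      rw [e5]
      refine Rd.add t2 (Rd.zero_iff.2 hs) ?_
      rw [← e2]
      refine Rd.sum t2 fun A hA => ?_
      rw [Finset.mem_powerset] at hA
      rcases A.eq_empty_or_nonempty with hAe | hAne
      · subst hAe
        obtain ⟨j, hj⟩ := hne
        have hz : ∏ i ∈ S \ ∅, ((0 : ZMod 2) + ∑ j ∈ (∅ : Finset ι), m i j) = 0 :=
          Finset.prod_eq_zero (i := j) (by rwa [Finset.sdiff_empty]) (by simp)
        rw [hz, zero_mul, Ga_empty F2 hL h2, F2_zero h2, zero_div, mul_zero, Rd.zero_iff, map_zero]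
        exact zero_lt_one
      · exact Rd.mul (R1 (EU_one hv) hS hm' (c := fun _ => 0) (fun _ _ => rfl) hA)
          (hG A (hA.trans hSS) hAne)
    · intro A hA
      exact Rd.mul (R1 (EU_sgl hv) hS hm' (c := l) (fun i hi => (hl i (hSS hi)).symm) hA.1)
        (ih A hA (hA.1.trans hSS))
    · have h3 := t_I2 ι n l m S p (fun h => hp (hSS h)) hne
        (fun i hi j hj => hrec i (hSS hi) j (hSS hj)) (fun i hi => hmp i (hSS hi))
        (fun i hi => hpm i (hSS hi))
      rw [zero_add]
      exact h3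

/-- **S_B** -/
theorem t_B : S_B := by
  intro L Ω Γ _ v h hv F3 F2 s h1 h2 hC k ψ hk hψ ι _ π b p n l lb m S0 hS0 hb hp hbp hlb hnp h0
    hn hl hlbb hm hrec hpsi hmb hbm hmp hpm hmbp hmpb hG hH
  have hL := h.lat
  have t2 := v_two_lt hv
  have hA1 := stepB1 h hv h1 h2 hC hS0 hp hnp h0 hl hm hrec hmp hpm hG
  intro S
  induction S using Finset.strongInduction with
  | H S ih =>
    intro hSS
    have hS := hS0.mono hSS
    have hm' : ∀ i ∈ S, ∀ j ∈ S, i ≠ j → m i j = lg (sy (π j) (π i)) :=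
      fun i hi j hj => hm i (hSS hi) j (hSS hj)
    have e1 := E2 hL h1 (by omega : 1 ≤ k) hψ S hS
    have e2 := E2 hL h2 (by omega : 1 ≤ k) hψ S hS
    have hs := C2 hC hS hk hψ
    set Z3 : ℂ := Sv F3 Ω (bN ^ k * ∏ i ∈ S, π i) (Hf ψ π S) with hZ3
    set Z2 : ℂ := Sv F2 Ω (bN ^ k * ∏ i ∈ S, π i) (Hf ψ π S) with hZ2
    set T : Finset ι → ℂ := fun A =>
      (∏ i ∈ S \ A, (((π i : ℂ) * sgl (π i) - ψ (π i) * ∏ j ∈ A, sy (π j) (π i)) / 2)) *
        (Gb F3 Ω k ψ π A / 2 ^ (A.card + 1)) with hT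
    set T' : Finset ι → ℂ := fun A =>
      (∏ i ∈ S \ A, (((π i : ℂ) * sgl (π i) - ∏ j ∈ A, sy (π j) (π i)) / 2)) *
      ((bN * sgl bN) ^ (k - 1) * (((bN * sgl bN - ∏ j ∈ A, sy (π j) bN) / 2) *
        (Ga F3 Ω π A / 2 ^ A.card))) with hT'
    have es : ∑ A ∈ S.powerset, T A = ((Z3 - Z2) + Z2) + -∑ A ∈ S.powerset, T' A := by
      rw [← e1]
      ring
    set r : Finset ι → ZMod 2 := fun A =>
      (∏ i ∈ S \ A, (l i + (lb i + n b * n i) + ∑ j ∈ A, m i j)) *
        gd n m (insert p (insert b A)) with hr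
    set r' : Finset ι → ZMod 2 := fun A =>
      (∏ i ∈ S \ A, (l i + ∑ j ∈ A, m i j)) * ((1 + ∑ j ∈ A, lb j) * gd n m (insert p A)) with hr'
    set r1 : Finset ι → ZMod 2 := fun A =>
      (∏ i ∈ S \ A, (lb i + n b * n i + ∑ j ∈ A, m i j)) *
        (if ∑ j ∈ A, n j = n b + 1 then kp l m (insert b A) else 0) with hr1
    set r2 : Finset ι → ZMod 2 := fun A =>
      (∏ i ∈ S \ A, (0 + ∑ j ∈ A, m i j)) *
        ((∑ j ∈ A, lb j) * ((1 + ∑ j ∈ A, (l j + n j)) * gd n m A)) with hr2
    have hkey := ext t2 T r (d := (0 + (∑ A ∈ S.powerset, r1 A + ∑ A ∈ S.powerset, r2 A)) +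
      ∑ A ∈ S.powerset, r' A) es
      (Rd.add t2 (Rd.add t2 (Rd.zero_iff.2 hs) ?_) (Rd.neg t2 (Rd.sum t2 ?_))) ?_ ?_
    · have e3 : T S = Gb F3 Ω k ψ π S / 2 ^ (S.card + 1) := by
        simp only [hT, Finset.sdiff_self, Finset.prod_empty, one_mul]
      have e4 : r S = gd n m (insert p (insert b S)) := by
        simp only [hr, Finset.sdiff_self, Finset.prod_empty, one_mul]
      rwa [e3, e4] at hkey
    · rw [← e2]
      refine Rd.add t2 (Rd.sum t2 fun A hA => ?_) (Rd.sum t2 fun A hA => ?_)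
      · rw [Finset.mem_powerset] at hA
        refine Rd.mul (R2 (EU_one hv) hS hm' hψ (c := fun i => lb i + n b * n i)
          (fun i hi => ?_) hA) (hH A (hA.trans hSS))
        rw [zero_add]
        exact hpsi i (hSS hi)
      · rw [Finset.mem_powerset] at hA
        rcases A.eq_empty_or_nonempty with hAe | hAne
        · subst hAe
          have e6 : r2 ∅ = 0 := by
            simp only [hr2, Finset.sum_empty, zero_mul, mul_zero]
          rw [e6, Ga_empty F2 hL h2, F2_zero h2, zero_div, mul_zero, mul_zero, mul_zero,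
            Rd.zero_iff, map_zero]
          exact zero_lt_one
        · have e6 : r2 A = (∏ i ∈ S \ A, (0 + ∑ j ∈ A, m i j)) *
            ((0 + ∑ j ∈ A, lb j) * ((1 + ∑ j ∈ A, (l j + n j)) * gd n m A)) := by
            simp only [hr2, zero_add]
          rw [e6]
          exact Rd.mul (R1 (EU_one hv) hS hm' (c := fun _ => 0) (fun _ _ => rfl) hA)
            (R3 t2 (EU_one hv) (hS.mono hA) (fun i hi => hlbb i (hSS (hA hi)))
              (hG A (hA.trans hSS) hAne) k)
    · intro A hA
      rw [Finset.mem_powerset] at hA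
      have h3 := R3 t2 (EU_sgl hv) (hS.mono hA) (fun i hi => hlbb i (hSS (hA hi)))
              (hA1 A (hA.trans hSS)) k
      rw [lam_bN] at h3
      exact Rd.mul (R1 (EU_sgl hv) hS hm' (c := l) (fun i hi => (hl i (hSS hi)).symm) hA) h3
    · intro A hA
      refine Rd.mul (R2 (EU_sgl hv) hS hm' hψ (c := fun i => l i + (lb i + n b * n i))
        (fun i hi => ?_) hA.1) (ih A hA (hA.1.trans hSS))
      rw [← hl i (hSS hi), hpsi i (hSS hi)]
    · have h3 := t_I4 ι n l lb m S b p (fun h => hb (hSS h)) (fun h => hp (hSS h)) hbp hlb hnp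
        (fun i hi j hj => hrec i (hSS hi) j (hSS hj)) (fun i hi => hmb i (hSS hi))
        (fun i hi => hbm i (hSS hi)) (fun i hi => hmp i (hSS hi)) (fun i hi => hpm i (hSS hi))
        hmbp hmpb
      have e7 : ∑ A ∈ S.powerset, r A = Phi (fun i => l i + (lb i + n b * n i)) m
        (fun A => gd n m (insert p (insert b A))) S := rfl
      have e8 : ∑ A ∈ S.powerset, r' A =
        Phi l m (fun A => (1 + ∑ j ∈ A, lb j) * gd n m (insert p A)) S := rfl
      have e9 : ∑ A ∈ S.powerset, r1 A = Phi (fun i => lb i + n b * n i) m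
        (fun A => if ∑ j ∈ A, n j = n b + 1 then kp l m (insert b A) else 0) S := rfl
      have e10 : ∑ A ∈ S.powerset, r2 A =
        Phi 0 m (fun A => (∑ j ∈ A, lb j) * ((1 + ∑ j ∈ A, (l j + n j)) * gd n m A)) S := rfl
      rw [e7, e8, e9, e10, zero_add, ← h3]
      linear_combination -(two_self (Phi l m (fun A => (1 + ∑ j ∈ A, lb j) *
        gd n m (insert p A)) S))

end Pool.Agent.L0h98.EV
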