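import Pool.Agent.L0h98.BSD.TwoPrime

/-!
# Local solubility at the prime two, even discriminants

`D` is even or `3` modulo `4`; `e' = D (a - 11)`, `e = D (-a - 10) = 16 D * unit` are the roots of
`T² + 21 D T + 112 D²` in `ℚ₂` (`a² = a - 2`, `a` even).  The classes of the points are the pairs
`(z₁, z₂)` with `z₁` in the group generated by `5 D` and `z₂` a norm from `ℚ₂(√(5 D))`.
-/

set_option autoImplicit false

namespace Pool.Agent.L0h98.EV.Two

open Pool.Agent.L0h4.TC Pool.Agent.L0h98.BSD.Two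

lemma c8 : (((8 : ℤ_[2])) : ℚ_[2]) = 8 := rfl

lemma nm2 : ‖(2 : ℚ_[2])‖ = 1 / 2 := by
  have h := Padic.norm_p (p := 2)
  push_cast at h
  rw [h]
  norm_num

lemma sq8 {w : ℚ_[2]} (hw : ‖w‖ ≤ 1) : ∃ t : ℚ_[2], t ≠ 0 ∧ 1 + 8 * w = t ^ 2 := by
  obtain ⟨t, ht⟩ := hens2 ⟨w, hw⟩
  have hQ : (t : ℚ_[2]) ^ 2 = 1 + 8 * w := by
    have := congrArg (fun z : ℤ_[2] => (z : ℚ_[2])) ht
    push_cast [c8] at this
    exact this
  refine ⟨t, ?_, hQ.symm⟩
  intro h0
  rw [h0] at hQ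
  have h1 : (1 : ℚ_[2]) = 2 * (-(4 * w)) := by linear_combination -hQ
  have h2 : ‖(1 : ℚ_[2])‖ < 1 := by
    rw [h1, norm_mul, nm2, norm_neg, norm_mul]
    have h4 : ‖(4 : ℚ_[2])‖ = 1 / 4 := by
      have : (4 : ℚ_[2]) = 2 * 2 := by norm_num
      rw [this, norm_mul, nm2]
      norm_num
    rw [h4]
    linarith
  rw [norm_one] at h2
  exact lt_irrefl _ h2

/-- integers have norm at most one -/
lemma ni (n : ℤ) : ‖(n : ℚ_[2])‖ ≤ 1 := Padic.norm_int_le_one n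

/-- odd integers are units -/
lemma nodd {n : ℤ} (hn : n % 2 = 1) : ‖(n : ℚ_[2])‖ = 1 := by
  refine le_antisymm (ni n) ?_
  by_contra hc
  push Not at hc
  rw [Padic.norm_intCast_lt_one_iff] at hc
  norm_cast at hc
  omega

/-- the units are one modulo two -/
lemma unit_form {z : ℚ_[2]} (hz : ‖z‖ = 1) : ∃ u : ℚ_[2], ‖u‖ ≤ 1 ∧ z = 1 + 2 * u := by
  have h1 : ‖z - 1‖ ≤ 1 / 2 := by
    have hz' : ‖z‖ ≤ 1 := hz.le
    obtain ⟨Z, hZ⟩ : ∃ Z : ℤ_[2], (Z : ℚ_[2]) = z := ⟨⟨z, hz'⟩, rfl⟩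
    obtain ⟨n, hn, hm⟩ := PadicInt.exists_mem_range (p := 2) Z
    have h2 : ‖Z - (n : ℤ_[2])‖ < 1 := by
      rw [PadicInt.maximalIdeal_eq_span_p, Ideal.mem_span_singleton,
        ← PadicInt.norm_lt_one_iff_dvd] at hm
      exact hm
    have h3 : n = 1 := by
      rcases Nat.lt_or_ge n 1 with h | h
      · exfalso
        have h0 : n = 0 := by omega
        rw [h0, Nat.cast_zero, sub_zero] at h2
        have h4 : ‖Z‖ = ‖z‖ := by rw [← hZ]; rfl
        rw [h4, hz] at h2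
        exact lt_irrefl _ h2
      · omega
    rw [h3, Nat.cast_one, PadicInt.norm_lt_one_iff_dvd] at h2
    obtain ⟨c, hc⟩ := h2
    have h5 : z - 1 = 2 * (c : ℚ_[2]) := by
      have := congrArg (fun z : ℤ_[2] => (z : ℚ_[2])) hc
      push_cast at this
      rw [hZ] at this
      exact this
    rw [h5, norm_mul, nm2]
    have := PadicInt.norm_le_one c
    have h6 : ‖(c : ℚ_[2])‖ ≤ 1 := this
    linarith
  refine ⟨(z - 1) / 2, ?_, by ring⟩
  rw [norm_div, nm2]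
  linarith

/-- the norm of a square is not `1/2` -/
lemma sq_ne_half (z : ℚ_[2]) : ‖z‖ ^ 2 ≠ 1 / 2 := by
  intro h
  by_cases hz : z = 0
  · rw [hz, norm_zero] at h
    norm_num at h
  obtain ⟨n, hn⟩ := Padic.padicNormE.image hz
  rw [hn] at h
  push_cast at h
  have h1 : ((2 : ℝ) ^ (-n)) ^ 2 = 2 ^ (-1 : ℤ) := by
    rw [h]
    norm_num
  rw [← zpow_natCast, ← zpow_mul] at h1
  have h2 := zpow_right_injective₀ (by norm_num : (0 : ℝ) < 2) (by norm_num) h1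
  push_cast at h2
  omega

/-- the norm form is not very small -/
lemma key_norm {D : ℤ} (hD : D % 4 = 2 ∨ D % 4 = 3) {z r : ℚ_[2]} (hr : ‖r‖ = 1) :
    ‖2 * (D : ℚ_[2])‖ ≤ ‖z ^ 2 - 5 * D * r ^ 2‖ := by
  have h5 : ‖(5 : ℚ_[2])‖ = 1 := by
    have := nodd (n := 5) (by norm_num)
    push_cast at this
    exact this
  rcases hD with hD | hD
  · obtain ⟨d, rfl⟩ : ∃ d, D = 2 * (2 * d + 1) := ⟨D / 4, by omega⟩
    have h1 : ‖((2 * (2 * d + 1) : ℤ) : ℚ_[2])‖ = 1 / 2 := by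
      push_cast
      rw [norm_mul, nm2]
      have := nodd (n := 2 * d + 1) (by omega)
      push_cast at this
      rw [this, mul_one]
    have h2 : ‖5 * ((2 * (2 * d + 1) : ℤ) : ℚ_[2]) * r ^ 2‖ = 1 / 2 := by
      rw [norm_mul, norm_mul, norm_pow, h5, hr, h1]
      norm_num
    have h3 : ‖z ^ 2 - 5 * ((2 * (2 * d + 1) : ℤ) : ℚ_[2]) * r ^ 2‖ =
        max ‖z ^ 2‖ ‖5 * ((2 * (2 * d + 1) : ℤ) : ℚ_[2]) * r ^ 2‖ := by
      rw [sub_eq_add_neg, ← norm_neg (5 * ((2 * (2 * d + 1) : ℤ) : ℚ_[2]) * r ^ 2)]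
      apply Padic.add_eq_max_of_ne
      rw [norm_neg, h2, norm_pow]
      exact sq_ne_half z
    rw [h3, h2, norm_mul, nm2, h1]
    exact le_trans (by norm_num) (le_max_right _ _)
  · have h1 : ‖(D : ℚ_[2])‖ = 1 := nodd (by omega)
    have h2 : ‖5 * (D : ℚ_[2]) * r ^ 2‖ = 1 := by
      rw [norm_mul, norm_mul, norm_pow, h5, hr, h1]
      norm_num
    rw [norm_mul, nm2, h1]
    by_cases hz : ‖z‖ = 1
    · obtain ⟨u, hu, rfl⟩ := unit_form hz
      obtain ⟨v, hv, rfl⟩ := unit_form hr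
      obtain ⟨d, rfl⟩ : ∃ d, D = 4 * d + 3 := ⟨D / 4, by omega⟩
      have e : (1 + 2 * u) ^ 2 - 5 * (((4 * d + 3 : ℤ)) : ℚ_[2]) * (1 + 2 * v) ^ 2 =
          2 * ((-7 : ℤ) + 2 * (u * (u + 1) - 5 * (((4 * d + 3 : ℤ)) : ℚ_[2]) * (v * (v + 1)) -
            (5 * d : ℤ))) := by
        push_cast
        ring
      rw [e, norm_mul, nm2]
      have hu1 : ‖u * (u + 1)‖ ≤ 1 := by
        rw [norm_mul]
        have : ‖u + 1‖ ≤ 1 := (Padic.nonarchimedean _ _).trans (by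
          rw [norm_one]; exact max_le hu le_rfl)
        exact mul_le_one₀ hu (norm_nonneg _) this
      have hv1 : ‖v * (v + 1)‖ ≤ 1 := by
        rw [norm_mul]
        have : ‖v + 1‖ ≤ 1 := (Padic.nonarchimedean _ _).trans (by
          rw [norm_one]; exact max_le hv le_rfl)
        exact mul_le_one₀ hv (norm_nonneg _) this
      have hs : ∀ p q : ℚ_[2], ‖p‖ ≤ 1 → ‖q‖ ≤ 1 → ‖p - q‖ ≤ 1 := by
        intro p q hp hq
        rw [sub_eq_add_neg]
        exact (Padic.nonarchimedean _ _).trans (max_le hp (by rwa [norm_neg]))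
      have h6 : ‖u * (u + 1) - 5 * (((4 * d + 3 : ℤ)) : ℚ_[2]) * (v * (v + 1)) -
            ((5 * d : ℤ) : ℚ_[2])‖ ≤ 1 := by
        apply hs _ _ (hs _ _ hu1 _) (ni _)
        rw [norm_mul, norm_mul, h5, one_mul]
        exact mul_le_one₀ (ni _) (norm_nonneg _) hv1
      have h7 : ‖((-7 : ℤ) : ℚ_[2])‖ = 1 := nodd (by norm_num)
      have h8 : ‖2 * (u * (u + 1) - 5 * (((4 * d + 3 : ℤ)) : ℚ_[2]) * (v * (v + 1)) -
            ((5 * d : ℤ) : ℚ_[2]))‖ < 1 := by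
        rw [norm_mul, nm2]
        linarith
      have h9 : ‖((-7 : ℤ) : ℚ_[2]) + 2 * (u * (u + 1) -
          5 * (((4 * d + 3 : ℤ)) : ℚ_[2]) * (v * (v + 1)) - ((5 * d : ℤ) : ℚ_[2]))‖ = 1 := by
        rw [Padic.add_eq_max_of_ne (by rw [h7]; exact h8.ne'), h7]
        exact max_eq_left h8.le
      rw [h9]
    · have h3 : ‖z ^ 2 - 5 * (D : ℚ_[2]) * r ^ 2‖ = max ‖z ^ 2‖ ‖5 * (D : ℚ_[2]) * r ^ 2‖ := by
        rw [sub_eq_add_neg, ← norm_neg (5 * (D : ℚ_[2]) * r ^ 2)]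
        apply Padic.add_eq_max_of_ne
        rw [norm_neg, h2, norm_pow]
        intro h
        apply hz
        nlinarith [norm_nonneg z]
      rw [h3, h2]
      exact le_trans (by norm_num) (le_max_right _ _)

/-- representations by the norm form with nonzero coordinates -/
lemma rep {D : ℤ} (hD : D ≠ 0) {w g h : ℚ_[2]} (hw : w ≠ 0) (e : w = g ^ 2 - 5 * D * h ^ 2) :
    ∃ g' h' : ℚ_[2], g' ≠ 0 ∧ h' ≠ 0 ∧ w = g' ^ 2 - 5 * D * h' ^ 2 := by
  have hD' : (D : ℚ_[2]) ≠ 0 := by exact_mod_cast hD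
  have h1 : 1 - 20 * (D : ℚ_[2]) ≠ 0 := by
    have : (1 - 20 * D : ℤ) ≠ 0 := by omega
    exact_mod_cast this
  have h2 : 1 + 20 * (D : ℚ_[2]) ≠ 0 := by
    have : (1 + 20 * D : ℤ) ≠ 0 := by omega
    exact_mod_cast this
  by_cases hg : g = 0
  · have hh : h ≠ 0 := by
      rintro rfl
      apply hw
      rw [e, hg]
      ring
    refine ⟨20 * D * h / (1 - 20 * D), h * (1 + 20 * D) / (1 - 20 * D), ?_, ?_, ?_⟩
    · exact div_ne_zero (mul_ne_zero (mul_ne_zero (by norm_num) hD') hh) h1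
    · exact div_ne_zero (mul_ne_zero hh h2) h1
    · obtain ⟨q, hq⟩ : ∃ q : ℚ_[2], q = 1 - 20 * (D : ℚ_[2]) := ⟨_, rfl⟩
      rw [← hq] at h1 ⊢
      have e3 : (20 * D * h / q) ^ 2 - 5 * D * (h * (1 + 20 * D) / q) ^ 2 =
          (400 * D ^ 2 * h ^ 2 - 5 * D * h ^ 2 * (1 + 20 * D) ^ 2) / q ^ 2 := by
        field_simp
        ring
      rw [e3, e, hg, eq_div_iff (pow_ne_zero 2 h1), hq]
      ring
  · by_cases hh : h = 0
    · refine ⟨g * (1 + 20 * D) / (1 - 20 * D), 4 * g / (1 - 20 * D), ?_, ?_, ?_⟩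
      · exact div_ne_zero (mul_ne_zero hg h2) h1
      · exact div_ne_zero (mul_ne_zero (by norm_num) hg) h1
      · obtain ⟨q, hq⟩ : ∃ q : ℚ_[2], q = 1 - 20 * (D : ℚ_[2]) := ⟨_, rfl⟩
        rw [← hq] at h1 ⊢
        have e3 : (g * (1 + 20 * D) / q) ^ 2 - 5 * D * (4 * g / q) ^ 2 =
            (g ^ 2 * (1 + 20 * D) ^ 2 - 80 * D * g ^ 2) / q ^ 2 := by
          field_simp
          ring
        rw [e3, e, hh, eq_div_iff (pow_ne_zero 2 h1), hq]
        ring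
    · exact ⟨g, h, hg, hh, e⟩

/-- the root `a` and the unit `r`, `5 r² = 11 - a` -/
lemma root {a : ℚ_[2]} (ha : a ^ 2 = a - 2) (ha1 : ‖a‖ < 1) :
    ∃ r : ℚ_[2], ‖r‖ = 1 ∧ 5 * r ^ 2 = 11 - a ∧ ‖a + 10‖ ≤ ‖(16 : ℚ_[2])‖ := by
  obtain ⟨s, hs⟩ := exists_s
  have c181 : (((181 : ℤ_[2])) : ℚ_[2]) = 181 := rfl
  have c8192 : (((8192 : ℤ_[2])) : ℚ_[2]) = 8192 := rfl
  have sQ : 1 - 181*(s : ℚ_[2]) + 8192*(s : ℚ_[2])^2 = 0 := by
    have := congrArg (fun z : ℤ_[2] => (z : ℚ_[2])) hs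
    push_cast [c181, c8192] at this
    exact this
  have hsn : ‖(s : ℚ_[2])‖ ≤ 1 := PadicInt.norm_le_one s
  have h5 : ‖(5 : ℚ_[2])‖ = 1 := by
    have := nodd (n := 5) (by norm_num)
    push_cast at this
    exact this
  -- `a = -90 + 8192 s`
  have haa : a = -90 + 8192 * (s : ℚ_[2]) := by
    have h1 : (a - (-90 + 8192 * (s : ℚ_[2]))) * (a - (91 - 8192 * (s : ℚ_[2]))) = 0 := by
      linear_combination ha - (8192 : ℚ_[2]) * sQ
    rcases mul_eq_zero.1 h1 with h2 | h2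
    · linear_combination h2
    · exfalso
      have h3 : a = ((91 : ℤ) : ℚ_[2]) + 2 * (-(4096 * (s : ℚ_[2]))) := by
        push_cast
        linear_combination h2
      have h4 : ‖2 * (-(4096 * (s : ℚ_[2])))‖ < 1 := by
        rw [norm_mul, nm2, norm_neg, norm_mul]
        have h6 : ‖((4096 : ℤ) : ℚ_[2])‖ ≤ 1 := ni _
        push_cast at h6
        have := mul_le_one₀ h6 (norm_nonneg _) hsn
        linarith
      have h5' : ‖((91 : ℤ) : ℚ_[2])‖ = 1 := nodd (by norm_num)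
      have h7 : ‖a‖ = 1 := by
        rw [h3, Padic.add_eq_max_of_ne (by rw [h5']; exact h4.ne'), h5']
        exact max_eq_left h4.le
      rw [h7] at ha1
      exact lt_irrefl _ ha1
  have hw : ‖(63 : ℚ_[2]) - 5120 * (s : ℚ_[2])‖ ≤ 1 := by
    rw [sub_eq_add_neg]
    refine (Padic.nonarchimedean _ _).trans (max_le ?_ ?_)
    · have := ni 63
      push_cast at this
      exact this
    · rw [norm_neg, norm_mul]
      have := ni 5120
      push_cast at this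
      exact mul_le_one₀ this (norm_nonneg _) hsn
  obtain ⟨t, ht0, ht⟩ := sq8 hw
  refine ⟨t / 5, ?_, ?_, ?_⟩
  · rw [norm_div, h5, div_one]
    have h1 : ‖t‖ ^ 2 = 1 := by
      rw [← norm_pow, ← ht]
      have h2 : ‖8 * ((63 : ℚ_[2]) - 5120 * (s : ℚ_[2]))‖ < 1 := by
        have e8 : (8 : ℚ_[2]) = 2 * 4 := by norm_num
        rw [e8, mul_assoc, norm_mul, nm2, norm_mul]
        have := ni 4
        push_cast at this
        have := mul_le_one₀ this (norm_nonneg _) hw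
        linarith
      rw [Padic.add_eq_max_of_ne (by rw [norm_one]; exact h2.ne'), norm_one]
      exact max_eq_left h2.le
    nlinarith [norm_nonneg t]
  · rw [div_pow, haa]
    have : (5 : ℚ_[2]) ≠ 0 := by norm_num
    field_simp
    rw [← ht]
    ring
  · have e16 : a + 10 = 16 * (-5 + 512 * (s : ℚ_[2])) := by
      rw [haa]
      ring
    rw [e16, norm_mul]
    have h1 : ‖(-5 : ℚ_[2]) + 512 * (s : ℚ_[2])‖ ≤ 1 := by
      refine (Padic.nonarchimedean _ _).trans (max_le ?_ ?_)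
      · have := ni (-5)
        push_cast at this
        exact this
      · rw [norm_mul]
        have := ni 512
        push_cast at this
        exact mul_le_one₀ this (norm_nonneg _) hsn
    calc ‖(16 : ℚ_[2])‖ * ‖(-5 : ℚ_[2]) + 512 * (s : ℚ_[2])‖ ≤ ‖(16 : ℚ_[2])‖ * 1 :=
        mul_le_mul_of_nonneg_left h1 (norm_nonneg _)
      _ = ‖(16 : ℚ_[2])‖ := mul_one _

/-- the points of class `(1, z₂)` -/
lemma case1 {D : ℤ} (hD : D % 4 = 2 ∨ D % 4 = 3) {a r : ℚ_[2]}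
    (hr1 : ‖r‖ = 1) (hr : 5 * r ^ 2 = 11 - a) (h16 : ‖a + 10‖ ≤ ‖(16 : ℚ_[2])‖)
    {w g h : ℚ_[2]} (hh : h ≠ 0)
    (hw : w = g ^ 2 - 5 * D * h ^ 2) :
    ∃ X t : ℚ_[2], X ≠ 0 ∧ t ≠ 0 ∧ X = w * (r / h) ^ 2 ∧ X - D * (a - 11) = (g * r / h) ^ 2 ∧
      X - D * (-a - 10) = X * t ^ 2 := by
  have hD0 : D ≠ 0 := by rintro rfl; omega
  have hD' : (D : ℚ_[2]) ≠ 0 := by exact_mod_cast hD0
  have e1 : w * (r / h) ^ 2 = (g * r / h) ^ 2 - 5 * D * r ^ 2 := by
    rw [hw]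
    field_simp
  have hX := key_norm hD (z := g * r / h) hr1
  rw [← e1] at hX
  have h2D : 0 < ‖2 * (D : ℚ_[2])‖ := norm_pos_iff.2 (mul_ne_zero (by norm_num) hD')
  have hX0 : w * (r / h) ^ 2 ≠ 0 := norm_pos_iff.1 (h2D.trans_le hX)
  have hq : ‖D * (a + 10) / (8 * (w * (r / h) ^ 2))‖ ≤ 1 := by
    rw [norm_div, norm_mul, norm_mul, div_le_one (mul_pos (norm_pos_iff.2 (by norm_num))
      (norm_pos_iff.2 hX0))]
    have e16 : ‖(16 : ℚ_[2])‖ = ‖(8 : ℚ_[2])‖ * ‖(2 : ℚ_[2])‖ := by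
      rw [← norm_mul]
      norm_num
    calc ‖(D : ℚ_[2])‖ * ‖a + 10‖ ≤ ‖(D : ℚ_[2])‖ * (‖(8 : ℚ_[2])‖ * ‖(2 : ℚ_[2])‖) := by
          rw [← e16]
          exact mul_le_mul_of_nonneg_left h16 (norm_nonneg _)
      _ = ‖(8 : ℚ_[2])‖ * ‖2 * (D : ℚ_[2])‖ := by
          rw [norm_mul]
          ring
      _ ≤ ‖(8 : ℚ_[2])‖ * ‖w * (r / h) ^ 2‖ := mul_le_mul_of_nonneg_left hX (norm_nonneg _)
  obtain ⟨t, ht0, ht⟩ := sq8 hq
  refine ⟨w * (r / h) ^ 2, t, hX0, ht0, rfl, ?_, ?_⟩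
  · rw [e1]
    linear_combination (-(D : ℚ_[2])) * hr
  · rw [← ht]
    have h8 : (8 : ℚ_[2]) ≠ 0 := by norm_num
    have : w * (r / h) ^ 2 * (1 + 8 * (D * (a + 10) / (8 * (w * (r / h) ^ 2)))) =
        w * (r / h) ^ 2 + D * (a + 10) := by
      generalize w * (r / h) ^ 2 = X at hX0 ⊢
      field_simp
    rw [this]
    ring

/-- **Local solubility at two, even discriminants.** -/
theorem loc_two (D : ℤ) (hD : D % 4 = 2 ∨ D % 4 = 3) {a : ℚ_[2]} (ha : a ^ 2 = a - 2)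
    (ha1 : ‖a‖ < 1) {x y : ℚ_[2]}
    (h1 : (∃ c : ℚ_[2], c ≠ 0 ∧ x + y * a = c ^ 2) ∨
      ∃ c : ℚ_[2], c ≠ 0 ∧ x + y * a = 5 * D * c ^ 2)
    (hz : x + y * (1 - a) ≠ 0) (h2 : ∃ g h : ℚ_[2], x + y * (1 - a) = g ^ 2 - 5 * D * h ^ 2) :
    LocZ ℚ_[2] (21 * D) (112 * D ^ 2) (x + 11 * y) (y / D) := by
  have hD0 : D ≠ 0 := by rintro rfl; omega
  have hD' : (D : ℚ_[2]) ≠ 0 := by exact_mod_cast hD0
  obtain ⟨g₀, h₀, e₀⟩ := h2
  obtain ⟨g, h, hg, hh, e⟩ := rep hD0 hz e₀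
  obtain ⟨r, hr1, hr, h16⟩ := root ha ha1
  have hr0 : r ≠ 0 := by
    rintro rfl
    rw [norm_zero] at hr1
    exact zero_ne_one hr1
  refine Or.inr (Or.inr ?_)
  rcases h1 with ⟨c, hc, hc1⟩ | ⟨c, hc, hc1⟩
  · obtain ⟨X, t, hX0, ht0, eX, e1, e2⟩ := case1 hD hr1 hr h16 hh e
    refine ptz_split (L := ℚ_[2]) (D := D) hD0 (x := x) (y := y) (a := a) (X := X)
      (Y := X * t * (g * r / h)) (w₁ := g * r / h / c) (w₂ := r * t / h) ha ?_ ?_ ?_ ?_
    · exact mul_ne_zero (mul_ne_zero hX0 ht0) (div_ne_zero (mul_ne_zero hg hr0) hh)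
    · rw [e1, e2]
      ring
    · rw [e1, hc1]
      field_simp
    · rw [e2, eX]
      field_simp
  · -- translation by `(0, 0)`
    have hs7 : (2 * a - 1) ^ 2 = -7 := by linear_combination 4 * ha
    have hs0 : 2 * a - 1 ≠ 0 := by
      intro h0
      rw [h0] at hs7
      norm_num at hs7
    obtain ⟨k, hk⟩ : ∃ k : ℚ_[2], k = 4 * (2 * a - 1) / (5 * r) := ⟨_, rfl⟩
    have hk0 : k ≠ 0 := by
      rw [hk]
      exact div_ne_zero (mul_ne_zero (by norm_num) hs0) (mul_ne_zero (by norm_num) hr0)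
    have hprod : (a + 10) * (11 - a) = 112 := by linear_combination -ha
    have hk2 : -5 * k ^ 2 = a + 10 := by
      rw [hk, div_pow, mul_pow, mul_pow, hs7]
      have : (11 : ℚ_[2]) - a ≠ 0 := by
        rw [← hr]
        exact mul_ne_zero (by norm_num) (pow_ne_zero 2 hr0)
      have e7 : a + 10 = 112 / (11 - a) := by
        rw [eq_div_iff this]
        exact hprod
      rw [e7, ← hr]
      field_simp
      norm_num
    have h10 : a + 10 ≠ 0 := by
      rw [← hk2]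
      exact mul_ne_zero (by norm_num) (pow_ne_zero 2 hk0)
    -- the norm `-e z₂`
    obtain ⟨X, t, hX0, ht0, eX, e1, e2⟩ := case1 hD hr1 hr h16 (w := D * (a + 10) *
      (x + y * (1 - a))) (g := 5 * D * k * h) (h := k * g)
      (mul_ne_zero hk0 hg) (by
        rw [← hk2, e]
        ring)
    obtain ⟨z, hzz⟩ : ∃ z, z = x + y * (1 - a) := ⟨_, rfl⟩
    rw [← hzz] at hz eX
    -- `e = D (-a - 10)`, `e' = D (a - 11)`
    have he' : (11 : ℚ_[2]) - a ≠ 0 := by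
      rw [← hr]
      exact mul_ne_zero (by norm_num) (pow_ne_zero 2 hr0)
    have hζ : 5 * D * k * h * r / (k * g) ≠ 0 :=
      div_ne_zero (mul_ne_zero (mul_ne_zero (mul_ne_zero (mul_ne_zero (by norm_num) hD') hk0) hh)
        hr0) (mul_ne_zero hk0 hg)
    refine ptz_split (L := ℚ_[2]) (D := D) hD0 (x := x) (y := y) (a := a)
      (X := D * (-a - 10) * (D * (a - 11)) / X)
      (Y := D * (-a - 10) * (D * (a - 11)) * (5 * D * k * h * r / (k * g)) * t / X)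
      (w₁ := r * t / c) (w₂ := 5 * D * k * h / z) ha ?_ ?_ ?_ ?_
    · refine div_ne_zero (mul_ne_zero (mul_ne_zero (mul_ne_zero (mul_ne_zero hD' ?_)
        (mul_ne_zero hD' ?_)) hζ) ht0) hX0
      · intro h0
        apply h10
        linear_combination -h0
      · intro h0
        apply he'
        linear_combination -h0
    · have f1 : D * (-a - 10) * (D * (a - 11)) / X - D * (a - 11) =
          -(D * (a - 11)) * t ^ 2 := by
        have : D * (-a - 10) * (D * (a - 11)) / X - D * (a - 11) =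
          -(D * (a - 11)) * ((X - D * (-a - 10)) / X) := by
          field_simp
          ring
        rw [this, e2]
        field_simp
      have f2 : D * (-a - 10) * (D * (a - 11)) / X - D * (-a - 10) =
          -(D * (-a - 10)) * ((5 * D * k * h * r / (k * g)) ^ 2 / X) := by
        rw [← e1]
        field_simp
        ring
      rw [f1, f2]
      generalize 5 * D * k * h * r / (k * g) = ζ
      field_simp
      try ring
    · have f1 : D * (-a - 10) * (D * (a - 11)) / X - D * (a - 11) =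
          -(D * (a - 11)) * t ^ 2 := by
        have : D * (-a - 10) * (D * (a - 11)) / X - D * (a - 11) =
          -(D * (a - 11)) * ((X - D * (-a - 10)) / X) := by
          field_simp
          ring
        rw [this, e2]
        field_simp
      rw [f1, hc1]
      have : a - 11 = -(5 * r ^ 2) := by linear_combination hr
      rw [this]
      field_simp
    · have f2 : D * (-a - 10) * (D * (a - 11)) / X - D * (-a - 10) =
          -(D * (-a - 10)) * ((5 * D * k * h * r / (k * g)) ^ 2 / X) := by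
        rw [← e1]
        field_simp
        ring
      rw [f2, ← hzz, eX]
      have : -(D * (-a - 10)) = D * (a + 10) := by ring
      rw [this]
      field_simp

end Pool.Agent.L0h98.EV.Two
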