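import Pool.Agent.L0h1.EV.Stm

/-!
# Project EV, piece M4: the identities over the field with two elements
-/

set_option autoImplicit false
set_option linter.unusedSectionVars false

namespace Pool.Agent.L0h98.EV

open Pool.Agent.Y698.SG Pool.Agent.L0h4.TW Pool.Agent.L0h1.EV

variable {ι : Type} [DecidableEq ι]

/-- the indicator function of a point -/
def ei (i : ι) : ι → ZMod 2 := fun j => if j = i then 1 else 0

/-- the general identity -/
theorem GI (c d : ι → ZMod 2) (r : ι → ι → ZMod 2) (S : Finset ι) :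
    Phi c r (gd d r) S = ∏ i ∈ S, (c i + d i) := by
  unfold Phi
  have h1 : ∀ A ∈ S.powerset, (∏ i ∈ S \ A, (c i + ∑ j ∈ A, r i j)) * gd d r A =
      ∑ U ∈ S.powerset.filter (fun U => A ⊆ U),
        (∏ i ∈ S \ U, (c i + d i)) * (gd d r A * ∏ i ∈ U \ A, (d i + ∑ j ∈ A, r i j)) := by
    intro A hA
    rw [Finset.mem_powerset] at hA
    have e : ∏ i ∈ S \ A, (c i + ∑ j ∈ A, r i j) =
        ∏ i ∈ S \ A, ((d i + ∑ j ∈ A, r i j) + (c i + d i)) :=
      Finset.prod_congr rfl fun i _ => by linear_combination -(two_self (d i))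
    rw [e, Finset.prod_add, Finset.sum_mul]
    refine Finset.sum_nbij' (fun T => A ∪ T) (fun U => U \ A) ?_ ?_ ?_ ?_ ?_
    · intro T hT
      rw [Finset.mem_powerset] at hT
      rw [Finset.mem_filter, Finset.mem_powerset]
      exact ⟨Finset.union_subset hA (hT.trans Finset.sdiff_subset), Finset.subset_union_left⟩
    · intro U hU
      rw [Finset.mem_filter, Finset.mem_powerset] at hU
      rw [Finset.mem_powerset]
      exact Finset.sdiff_subset_sdiff hU.1 subset_rfl
    · intro T hT
      rw [Finset.mem_powerset] at hT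
      have hd : Disjoint A T := by
        rw [Finset.disjoint_left]
        intro x hx hx'
        exact (Finset.mem_sdiff.1 (hT hx')).2 hx
      show (A ∪ T) \ A = T
      rw [Finset.union_sdiff_cancel_left hd]
    · intro U hU
      rw [Finset.mem_filter, Finset.mem_powerset] at hU
      show A ∪ U \ A = U
      exact Finset.union_sdiff_of_subset hU.2
    · intro T hT
      rw [Finset.mem_powerset] at hT
      have hd : Disjoint A T := by
        rw [Finset.disjoint_left]
        intro x hx hx'
        exact (Finset.mem_sdiff.1 (hT hx')).2 hx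
      have e1 : (A ∪ T) \ A = T := Finset.union_sdiff_cancel_left hd
      have e2 : S \ (A ∪ T) = (S \ A) \ T := (sdiff_sdiff_left (a := S) (b := A) (c := T)).symm
      show ((∏ i ∈ T, (d i + ∑ j ∈ A, r i j)) * ∏ i ∈ (S \ A) \ T, (c i + d i)) * gd d r A =
        (∏ i ∈ S \ (A ∪ T), (c i + d i)) *
          (gd d r A * ∏ i ∈ (A ∪ T) \ A, (d i + ∑ j ∈ A, r i j))
      rw [e1, e2]
      ring
  rw [Finset.sum_congr rfl h1]
  have h2 : ∑ A ∈ S.powerset, ∑ U ∈ S.powerset.filter (fun U => A ⊆ U),
        (∏ i ∈ S \ U, (c i + d i)) * (gd d r A * ∏ i ∈ U \ A, (d i + ∑ j ∈ A, r i j)) =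
      ∑ U ∈ S.powerset, ∑ A ∈ U.powerset,
        (∏ i ∈ S \ U, (c i + d i)) * (gd d r A * ∏ i ∈ U \ A, (d i + ∑ j ∈ A, r i j)) := by
    refine Finset.sum_comm' ?_
    intro A U
    rw [Finset.mem_powerset, Finset.mem_filter, Finset.mem_powerset, Finset.mem_powerset]
    exact ⟨fun h => ⟨h.2.2, h.2.1⟩, fun h => ⟨h.1.trans h.2, h.2, h.1⟩⟩
  rw [h2]
  have h3 : ∀ U ∈ S.powerset, ∑ A ∈ U.powerset,
        (∏ i ∈ S \ U, (c i + d i)) * (gd d r A * ∏ i ∈ U \ A, (d i + ∑ j ∈ A, r i j)) =
      if U = ∅ then ∏ i ∈ S, (c i + d i) else 0 := by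
    intro U _
    rw [← Finset.mul_sum]
    split_ifs with h
    · subst h
      have e0 : gd d r ∅ = 1 := by
        unfold gd
        exact Matrix.det_isEmpty
      rw [Finset.powerset_empty, Finset.sum_singleton, e0]
      simp
    · rw [Pool.Agent.Y286.SG.t_REC ι d r U (Finset.nonempty_iff_ne_empty.2 h), mul_zero]
  rw [Finset.sum_congr rfl h3, Finset.sum_ite_eq' S.powerset ∅,
    if_pos (Finset.empty_mem_powerset S)]

lemma Phi_congr {c c' : ι → ZMod 2} {m : ι → ι → ZMod 2} {h h' : Finset ι → ZMod 2}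
    {S : Finset ι} (hc : ∀ i ∈ S, c i = c' i) (hh : ∀ A, A ⊆ S → h A = h' A) :
    Phi c m h S = Phi c' m h' S := by
  unfold Phi
  refine Finset.sum_congr rfl fun A hA => ?_
  rw [hh A (Finset.mem_powerset.1 hA)]
  congr 1
  refine Finset.prod_congr rfl fun i hi => ?_
  rw [hc i (Finset.mem_sdiff.1 hi).1]

/-- the empty set does not contribute to `Phi 0` -/
lemma Phi_zero_congr {m : ι → ι → ZMod 2} {h h' : Finset ι → ZMod 2}
    {S : Finset ι} (hS : S.Nonempty) (hh : ∀ A, A ⊆ S → A.Nonempty → h A = h' A) :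
    Phi 0 m h S = Phi 0 m h' S := by
  unfold Phi
  refine Finset.sum_congr rfl fun A hA => ?_
  rcases A.eq_empty_or_nonempty with h0 | h0
  · subst h0
    obtain ⟨i, hi⟩ := hS
    have : ∏ i ∈ S \ ∅, ((0 : ι → ZMod 2) i + ∑ j ∈ (∅ : Finset ι), m i j) = 0 := by
      refine Finset.prod_eq_zero (i := i) (by simpa using hi) ?_
      simp
    rw [this, zero_mul, zero_mul]
  · rw [hh A (Finset.mem_powerset.1 hA) h0]

lemma Phi_add (c : ι → ZMod 2) (m : ι → ι → ZMod 2) (h h' : Finset ι → ZMod 2)
    (S : Finset ι) : Phi c m (fun A => h A + h' A) S = Phi c m h S + Phi c m h' S := by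
  unfold Phi
  rw [← Finset.sum_add_distrib]
  exact Finset.sum_congr rfl fun A _ => mul_add _ _ _

lemma Phi_mul (c : ι → ZMod 2) (m : ι → ι → ZMod 2) (a : ZMod 2) (h : Finset ι → ZMod 2)
    (S : Finset ι) : Phi c m (fun A => a * h A) S = a * Phi c m h S := by
  unfold Phi
  rw [Finset.mul_sum]
  exact Finset.sum_congr rfl fun A _ => by ring

/-- the transform on a larger set -/
lemma Phi_insert (c : ι → ZMod 2) (m : ι → ι → ZMod 2) (h : Finset ι → ZMod 2) {S : Finset ι}
    {b : ι} (hb : b ∉ S) :
    Phi c m h (insert b S) = Phi c m (fun A => (c b + ∑ j ∈ A, m b j) * h A) S +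
      Phi (fun i => c i + m i b) m (fun A => h (insert b A)) S := by
  unfold Phi
  rw [Finset.sum_powerset_insert hb]
  congr 1
  · refine Finset.sum_congr rfl fun A hA => ?_
    rw [Finset.mem_powerset] at hA
    have hbA : b ∉ A := fun h => hb (hA h)
    rw [Finset.insert_sdiff_of_notMem _ hbA, Finset.prod_insert (fun h' => hb
      (Finset.mem_sdiff.1 h').1)]
    ring
  · refine Finset.sum_congr rfl fun A hA => ?_
    rw [Finset.mem_powerset] at hA
    have hbA : b ∉ A := fun h => hb (hA h)
    have e : insert b S \ insert b A = S \ A := by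
      ext i
      simp only [Finset.mem_sdiff, Finset.mem_insert]
      constructor
      · rintro ⟨h1 | h1, h2⟩
        · exact absurd (Or.inl h1) h2
        · exact ⟨h1, fun h3 => h2 (Or.inr h3)⟩
      · rintro ⟨h1, h2⟩
        refine ⟨Or.inr h1, ?_⟩
        rintro (h3 | h3)
        · exact hb (h3 ▸ h1)
        · exact h2 h3
    rw [e]
    congr 1
    refine Finset.prod_congr rfl fun i _ => ?_
    rw [Finset.sum_insert hbA]
    ring

lemma gd_congr {c c' : ι → ZMod 2} {m : ι → ι → ZMod 2} {S : Finset ι}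
    (hc : ∀ i ∈ S, c i = c' i) : gd c m S = gd c' m S := by
  unfold gd
  congr 1
  ext i j
  rw [Matrix.of_apply, Matrix.of_apply, hc i i.2]

/-- the rows of the Laplace matrix sum to zero -/
lemma gd_zero {m : ι → ι → ZMod 2} {S : Finset ι} (hS : S.Nonempty) : gd 0 m S = 0 := by
  by_contra hne
  have hne' : gd 0 m S ≠ 0 := hne
  rw [gd_ker] at hne'
  obtain ⟨i, hi⟩ := hS
  have h2 := hne' (fun _ => 1) (fun i _ => by
    rw [Pi.zero_apply, zero_mul, zero_add]
    refine Finset.sum_eq_zero fun j _ => ?_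
    rw [two_self (1 : ZMod 2), mul_zero]) i hi
  exact one_ne_zero h2

theorem t_I1 : S_I1 := by
  intro ι _ l m S hS
  have h1 : Phi 0 m (kp l m) S = ∑ i ∈ S, l i * Phi 0 m (gd (ei i) m) S := by
    have h2 : Phi 0 m (kp l m) S = Phi 0 m (fun A => ∑ i ∈ S, l i * gd (ei i) m A) S := by
      refine Phi_zero_congr hS fun A hA hA0 => ?_
      unfold kp
      refine Finset.sum_subset hA fun i _ hi => ?_
      have : gd (fun j => if j = i then (1 : ZMod 2) else 0) m A = gd 0 m A := by
        refine gd_congr fun j hj => ?_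
        rw [if_neg (fun h : j = i => hi (h ▸ hj))]
        rfl
      rw [this, gd_zero hA0, mul_zero]
    rw [h2]
    unfold Phi
    simp only [Finset.mul_sum]
    rw [Finset.sum_comm]
    refine Finset.sum_congr rfl fun i _ => Finset.sum_congr rfl fun A _ => ?_
    ring
  rw [h1]
  refine Finset.sum_congr rfl fun i hi => ?_
  rw [GI]
  by_cases h : S = {i}
  · rw [if_pos h, h, Finset.prod_singleton]
    simp [ei]
  · rw [if_neg h]
    have : ∃ j ∈ S, j ≠ i := by
      by_contra hc
      push Not at hc
      apply h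
      ext j
      rw [Finset.mem_singleton]
      exact ⟨fun hj => hc j hj, fun hj => hj ▸ hi⟩
    obtain ⟨j, hj, hji⟩ := this
    rw [Finset.prod_eq_zero hj, mul_zero]
    simp [ei, hji]

theorem t_I3 : S_I3 := by
  intro ι _ l lb mb m S b hb hlb h1 h2
  have h3 := t_I1 ι l m (insert b S) (Finset.insert_nonempty b S)
  rw [Phi_insert _ _ _ hb] at h3
  have h4 : Phi (fun i => (0 : ι → ZMod 2) i + m i b) m (fun A => kp l m (insert b A)) S =
      Phi mb m (fun A => kp l m (insert b A)) S :=
    Phi_congr (fun i hi => by rw [Pi.zero_apply, zero_add, h1 i hi]) (fun _ _ => rfl)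
  have h5 : Phi 0 m (fun A => ((0 : ι → ZMod 2) b + ∑ j ∈ A, m b j) * kp l m A) S =
      Phi 0 m (fun A => (∑ j ∈ A, lb j) * kp l m A) S :=
    Phi_congr (fun _ _ => rfl) (fun A hA => by
      rw [Pi.zero_apply, zero_add, Finset.sum_congr rfl fun j hj => h2 j (hA hj)])
  rw [h4, h5] at h3
  rw [add_comm, h3]
  by_cases h : S = ∅
  · subst h
    simp [hlb]
  · rw [if_neg h]
    refine Finset.sum_eq_zero fun i _ => ?_
    rw [if_neg]
    intro h6
    apply h
    have h7 : (insert b S).card = 1 := by rw [h6, Finset.card_singleton]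
    rw [Finset.card_insert_of_notMem hb] at h7
    exact Finset.card_eq_zero.1 (by omega)

/-- the cofactors of an odd set -/
lemma cof {n : ι → ZMod 2} {m : ι → ι → ZMod 2} {U : Finset ι} (h : Recip n m U)
    (hn : ∑ k ∈ U, n k = 1) {i : ι} (hi : i ∈ U) : gd (ei i) m U = gd n m U := by
  have lap_const : ∀ (x : ι → ZMod 2) (t : ZMod 2) (k : ι),
      lap m U (fun i => x i + t) k = lap m U x k := by
    intro x t k
    unfold lap
    refine Finset.sum_congr rfl fun j _ => ?_
    linear_combination m k j * two_self t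
  have key : gd (ei i) m U ≠ 0 ↔ gd n m U ≠ 0 := by
    rw [gd_odd h hn, gd_ker]
    constructor
    · intro hk x hx hnx
      have h1 := hk (fun k => x k + x i) (fun k hk' => by
        have h2 : ∑ j ∈ U, m k j * ((fun k => x k + x i) k + (fun k => x k + x i) j) = 0 := by
          have := lap_const x (x i) k
          unfold lap at this
          rw [this]
          exact hx k hk'
        rw [h2, add_zero]
        unfold ei
        split_ifs with h3
        · rw [h3, one_mul]
          exact two_self (x i)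
        · rw [zero_mul])
      have h2 : ∀ k ∈ U, x k = x i := fun k hk' => by
        linear_combination h1 k hk' - two_self (x i)
      have h3 : x i = 0 := by
        rw [Finset.sum_congr rfl (fun k hk' => by rw [h2 k hk']), ← Finset.sum_mul, hn,
          one_mul] at hnx
        exact hnx
      intro k hk'
      rw [h2 k hk', h3]
    · intro hk x hx
      have h1 : ∀ k ∈ U, ei i k * x k + lap m U x k = 0 := hx
      have h2 : x i = 0 := by
        have h3 := Finset.sum_congr rfl h1
        rw [Finset.sum_const_zero, Finset.sum_add_distrib, lap_sum h hn, add_zero] at h3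
        have h4 : ∑ k ∈ U, ei i k * x k = x i := by
          unfold ei
          simp [hi]
        rw [h4] at h3
        exact h3
      have h5 : ∀ k ∈ U, lap m U x k = 0 := by
        intro k hk'
        have h6 := h1 k hk'
        by_cases h7 : k = i
        · subst h7
          rwa [h2, mul_zero, zero_add] at h6
        · unfold ei at h6
          rwa [if_neg h7, zero_mul, zero_add] at h6
      set t := ∑ k ∈ U, n k * x k with ht
      have h6 := hk (fun k => x k + t) (fun k hk' => by
        rw [lap_const]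
        exact h5 k hk') (by
        simp only [mul_add]
        rw [Finset.sum_add_distrib, ← Finset.sum_mul, hn, one_mul, ← ht]
        exact two_self t)
      have h7 : t = 0 := by
        have := h6 i hi
        simpa [h2] using this
      intro k hk'
      have := h6 k hk'
      simpa [h7] using this
  rcases gd_val (ei i) m U with h1 | h1 <;> rcases gd_val n m U with h2 | h2
  · rw [h1, h2]
  · exfalso
    exact key.2 (by rw [h2]; exact one_ne_zero) h1
  · exfalso
    exact key.1 (by rw [h1]; exact one_ne_zero) h2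
  · rw [h1, h2]

lemma kp_odd {n : ι → ZMod 2} {m : ι → ι → ZMod 2} {U : Finset ι} (l : ι → ZMod 2)
    (h : Recip n m U) (hn : ∑ k ∈ U, n k = 1) : kp l m U = (∑ k ∈ U, l k) * gd n m U := by
  unfold kp
  rw [Finset.sum_mul]
  refine Finset.sum_congr rfl fun i hi => ?_
  rw [← cof h hn hi]
  rfl

lemma zm2 (a : ZMod 2) : a = 0 ∨ a = 1 := by revert a; decide

theorem t_I2 : S_I2 := by
  intro ι _ n l m S p hp hS hR h1 h2
  have h3 := GI 0 n m (insert p S)
  rw [Phi_insert _ _ _ hp] at h3
  have h4 : Phi (fun i => (0 : ι → ZMod 2) i + m i p) m (fun A => gd n m (insert p A)) S =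
      Phi l m (fun A => gd n m (insert p A)) S :=
    Phi_congr (fun i hi => by rw [Pi.zero_apply, zero_add, h1 i hi]) (fun _ _ => rfl)
  have h5 := GI 0 n m S
  simp only [Pi.zero_apply, zero_add] at h3 h4 h5
  rw [h4, Finset.prod_insert hp, ← h5, ← Phi_mul] at h3
  have h6 : Phi l m (fun A => gd n m (insert p A)) S =
      Phi 0 m (fun A => (∑ j ∈ A, m p j) * gd n m A) S + Phi 0 m (fun A => n p * gd n m A) S := by
    rw [← h3]
    linear_combination -(two_self (Phi 0 m (fun A => (∑ j ∈ A, m p j) * gd n m A) S))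
  rw [h6, ← Phi_add]
  refine Phi_zero_congr hS fun A hA hA0 => ?_
  have hRA : Recip n m A := Recip.mono hR hA
  have h7 : ∑ j ∈ A, m p j = ∑ j ∈ A, l j + n p * ∑ j ∈ A, n j := by
    rw [Finset.mul_sum, ← Finset.sum_add_distrib]
    exact Finset.sum_congr rfl fun j hj => h2 j (hA hj)
  rcases zm2 (∑ k ∈ A, n k) with h8 | h8
  · rw [gd_even hRA h8 hA0]
    simp
  · rw [h7, Finset.sum_add_distrib, h8]
    linear_combination (gd n m A) * (two_self (n p) - two_self 1)

theorem t_I4 : S_I4 := by
  intro ι _ n l lb m S b p hb hp hbp hlb hnp hR h1 h2 h3 h4 h5 h6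
  have hpb : p ∉ insert b S := by
    rw [Finset.mem_insert]
    rintro (h | h)
    · exact hbp h.symm
    · exact hp h
  -- the identity on `S`, `b`
  have X := GI 0 n m (insert b S)
  rw [Phi_insert _ _ _ hb, Finset.prod_insert hb] at X
  simp only [Pi.zero_apply, zero_add] at X
  have X1 : Phi (fun i => m i b) m (fun A => gd n m (insert b A)) S =
      Phi (fun i => lb i + n b * n i) m (fun A => gd n m (insert b A)) S :=
    Phi_congr (fun i hi => h1 i hi) (fun _ _ => rfl)
  have X2 : Phi 0 m (fun A => (∑ j ∈ A, m b j) * gd n m A) S =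
      Phi 0 m (fun A => (∑ j ∈ A, lb j) * gd n m A) S :=
    Phi_congr (fun _ _ => rfl) (fun A hA => by
      rw [Finset.sum_congr rfl fun j hj => h2 j (hA hj)])
  rw [X1, X2] at X
  -- the identity on `S`, `b`, `p`
  have Y := GI 0 n m (insert p (insert b S))
  rw [Phi_insert _ _ _ hpb, Phi_insert _ _ _ hb, Phi_insert _ _ _ hb, Finset.prod_insert hpb,
    Finset.prod_insert hb] at Y
  simp only [Pi.zero_apply, zero_add] at Y
  have Y1 : Phi 0 m (fun A => (∑ j ∈ A, m b j) * ((∑ j ∈ A, m p j) * gd n m A)) S =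
      Phi 0 m (fun A => (∑ j ∈ A, lb j) * ((∑ j ∈ A, m p j) * gd n m A)) S :=
    Phi_congr (fun _ _ => rfl) (fun A hA => by
      rw [Finset.sum_congr rfl fun j hj => h2 j (hA hj)])
  have Y2 : Phi (fun i => m i b) m
        (fun A => (∑ j ∈ insert b A, m p j) * gd n m (insert b A)) S =
      Phi (fun i => lb i + n b * n i) m
        (fun A => (m p b + ∑ j ∈ A, m p j) * gd n m (insert b A)) S :=
    Phi_congr (fun i hi => h1 i hi) (fun A hA => by
      rw [Finset.sum_insert (fun h => hb (hA h))])
  have Y3 : Phi (fun i => m i p) m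
        (fun A => (m b p + ∑ j ∈ A, m b j) * gd n m (insert p A)) S =
      Phi l m (fun A => (1 + ∑ j ∈ A, lb j) * gd n m (insert p A)) S :=
    Phi_congr (fun i hi => h3 i hi) (fun A hA => by
      rw [h5, Finset.sum_congr rfl fun j hj => h2 j (hA hj)])
  have Y4 : Phi (fun i => m i p + m i b) m (fun A => gd n m (insert p (insert b A))) S =
      Phi (fun i => l i + (lb i + n b * n i)) m (fun A => gd n m (insert p (insert b A))) S :=
    Phi_congr (fun i hi => by rw [h1 i hi, h3 i hi]) (fun A hA => rfl)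
  rw [Y1, Y2, Y3, Y4, ← X, hnp] at Y
  -- the remaining identity
  have Z1 : Phi 0 m (fun A => (∑ j ∈ A, lb j) * ((∑ j ∈ A, m p j) * gd n m A)) S +
      n b * Phi 0 m (fun A => (∑ j ∈ A, lb j) * gd n m A) S =
      Phi 0 m (fun A => (∑ j ∈ A, lb j) * ((1 + ∑ j ∈ A, (l j + n j)) * gd n m A)) S := by
    rw [← Phi_mul, ← Phi_add]
    refine Phi_congr (fun _ _ => rfl) fun A hA => ?_
    rcases A.eq_empty_or_nonempty with hA0 | hA0
    · subst hA0
      simp
    have hRA : Recip n m A := Recip.mono hR hA
    have h7 : ∑ j ∈ A, m p j = ∑ j ∈ A, l j + n b * ∑ j ∈ A, n j := by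
      rw [Finset.mul_sum, ← Finset.sum_add_distrib]
      exact Finset.sum_congr rfl fun j hj => by rw [h4 j (hA hj), hnp]
    rcases zm2 (∑ k ∈ A, n k) with h8 | h8
    · rw [gd_even hRA h8 hA0]
      simp
    · rw [h7, Finset.sum_add_distrib, h8]
      linear_combination (∑ j ∈ A, lb j) * (gd n m A) * (two_self (n b) - two_self 1)
  have Z2 : Phi (fun i => lb i + n b * n i) m
        (fun A => (m p b + ∑ j ∈ A, m p j) * gd n m (insert b A)) S +
      n b * Phi (fun i => lb i + n b * n i) m (fun A => gd n m (insert b A)) S =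
      Phi (fun i => lb i + n b * n i) m
      (fun A => if ∑ j ∈ A, n j = n b + 1 then kp l m (insert b A) else 0) S := by
    rw [← Phi_mul, ← Phi_add]
    refine Phi_congr (fun _ _ => rfl) fun A hA => ?_
    have hbA : b ∉ A := fun h => hb (hA h)
    have hRA : Recip n m (insert b A) := by
      intro i hi j hj hij
      rw [Finset.mem_insert] at hi hj
      rcases hi with hi | hi <;> rcases hj with hj | hj
      · exact absurd (hi.trans hj.symm) hij
      · subst hi
        rw [h2 j (hA hj), h1 j (hA hj)]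
        linear_combination two_self (lb j)
      · subst hj
        rw [h2 i (hA hi), h1 i (hA hi)]
        linear_combination two_self (lb i)
      · exact hR i (hA hi) j (hA hj) hij
    have h7 : ∑ j ∈ A, m p j = ∑ j ∈ A, l j + n b * ∑ j ∈ A, n j := by
      rw [Finset.mul_sum, ← Finset.sum_add_distrib]
      exact Finset.sum_congr rfl fun j hj => by rw [h4 j (hA hj), hnp]
    split_ifs with h8
    · have h9 : ∑ k ∈ insert b A, n k = 1 := by
        rw [Finset.sum_insert hbA, h8]
        linear_combination two_self (n b)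
      rw [kp_odd l hRA h9, Finset.sum_insert hbA, hlb, h7, h8, h6, hnp]
      linear_combination (gd n m (insert b A)) * (2 * sq_self (n b) + 2 * two_self (n b))
    · have h9 : ∑ k ∈ insert b A, n k = 0 := by
        rw [Finset.sum_insert hbA]
        generalize ∑ k ∈ A, n k = a at h8 ⊢
        generalize n b = c at h8 ⊢
        revert a c
        decide
      rw [gd_even hRA h9 (Finset.insert_nonempty b A)]
      simp
  rw [← Z1, ← Z2]
  generalize Phi 0 m (fun A => (∑ j ∈ A, lb j) * ((∑ j ∈ A, m p j) * gd n m A)) S = P1 at Y ⊢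
  generalize Phi (fun i => lb i + n b * n i) m
        (fun A => (m p b + ∑ j ∈ A, m p j) * gd n m (insert b A)) S = P2 at Y ⊢
  generalize Phi l m (fun A => (1 + ∑ j ∈ A, lb j) * gd n m (insert p A)) S = P3 at Y ⊢
  generalize Phi (fun i => l i + (lb i + n b * n i)) m
    (fun A => gd n m (insert p (insert b A))) S = P4 at Y ⊢
  linear_combination Y - two_self P1 - two_self P2

end Pool.Agent.L0h98.EV
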