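import Pool.Agent.L0h98.EV.Sv

/-!
# Project EV: parity, congruences and residues of the weighted sums
-/

set_option autoImplicit false
set_option linter.unusedSectionVars false

namespace Pool.Agent.L0h98.EV

open Pool.Agent.Y698 Pool.Agent.Y698.SG Pool.Agent.L0h4.TW Pool.Agent.L0h23.ED Pool.Agent.L0h1.EV
open H667R3 Pool.Agent.W192.HK Pool.Agent.TH936.CM Pool.Agent.TH936.PU

variable {L : PeriodPair} {Ω : ℂ} {Γ : Type} [LinearOrderedCommGroupWithZero Γ]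
  {v : Valuation ℂ Γ} {F F' : ℂ → ℂ} {ε : RR → ℂ} {s : ℂ}

lemma DF_s2 (hF : DF L Ω F ε s) {z : ℂ} (hz : Tor L z) : s * (s * F z) = F z := by
  have h1 := hF.par z hz
  have h2 := hF.par (-z) hz.neg
  rw [neg_neg, h1] at h2
  exact h2.symm

/-- the parity -/
theorem Sv_par (hL : IsLat L RR Ω) (hF : DF L Ω F ε s) {n : RR} (hn : n ≠ 0) {φ : RR → ℂ}
    (hφ : Pe n φ) (he : ∀ x, φ (-x) = -s * φ x) : Sv F Ω n φ = 0 := by
  have f1 := fin_quot hn
  let _ : Fintype (RR ⧸ sp n) := Fintype.ofFinite _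
  rw [Sv_eq]
  have hg : Function.Bijective (fun y : RR ⧸ sp n => Ideal.Quotient.mk (sp n) (-y.out)) := by
    have e1 : (fun y : RR ⧸ sp n => Ideal.Quotient.mk (sp n) (-y.out)) = fun y => -y := by
      funext y
      rw [map_neg, Ideal.Quotient.mk_out]
    rw [e1]
    exact neg_involutive.bijective
  have h1 := sum_rep _ hg (fun r : RR => φ r * F (Ω * r / (n : ℂ)))
    (fun x y h => Sv_term hL hF hn hφ h)
  have h2 : ∀ y : RR ⧸ sp n, φ (-y.out) * F (Ω * ((-y.out : RR) : ℂ) / (n : ℂ)) =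
      -(φ y.out * F (Ω * y.out / (n : ℂ))) := by
    intro y
    have e : Ω * ((-y.out : RR) : ℂ) / (n : ℂ) = -(Ω * y.out / (n : ℂ)) := by
      push_cast
      ring
    rw [he, e, hF.par _ (Tor.of hL hn _)]
    linear_combination (-φ y.out) * DF_s2 hF (Tor.of hL hn y.out)
  rw [Finset.sum_congr rfl (fun y _ => h2 y), Finset.sum_neg_distrib] at h1
  linear_combination h1 / 2

/-- **S_P** -/
theorem t_P : S_P := by
  intro L Ω F ε s hL hF k ψ hψ ι _ π S hS hpar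
  unfold Gb
  have hn : bN ^ k * ∏ i ∈ S, π i ≠ 0 := mul_ne_zero (pow_ne_zero _ bN_pr.ne_zero) (prod_ne hS)
  refine Sv_par hL hF hn ?_ ?_
  · exact (hψ.per.mono (Dvd.intro _ rfl)).mul ((Pe.prod fun p _ => sy_per (π p)).mono
      (Dvd.intro_left _ rfl))
  · intro x
    have h1 : ∏ i ∈ S, sy (π i) (-x) = (∏ i ∈ S, sy (π i) (-1)) * ∏ i ∈ S, sy (π i) x := by
      rw [← Finset.prod_mul_distrib]
      refine Finset.prod_congr rfl fun i hi => ?_
      rw [← (hS.pd i hi).mul, neg_one_mul]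
    have h2 : ψ (-x) = ψ (-1) * ψ x := by rw [← hψ.mul, neg_one_mul]
    rw [h1, h2, ← hpar]
    ring

/-! ### the congruences -/

lemma v_sum_lt {κ : Type*} (s : Finset κ) (f : κ → ℂ) (h : ∀ i ∈ s, v (f i) < 1) :
    v (∑ i ∈ s, f i) < 1 := by
  classical
  induction s using Finset.induction_on with
  | empty => simp
  | insert i s hi ih =>
    rw [Finset.sum_insert hi]
    exact v_add_lt (h i (Finset.mem_insert_self _ _)) (ih fun j hj => h j
      (Finset.mem_insert_of_mem hj))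

theorem Con_Sv (hC : Con v Ω F F') {n : RR} (hn : n ≠ 0)
    (h1 : ¬ aR ∣ n) (h2 : ¬ n ∣ 2) {H : RR → ℂ} (hH : ∀ x, H x = 0 ∨ H x = 1)
    (hH' : ∀ x, H x ≠ 0 → IsCoprime x n) : v (Sv F Ω n H - Sv F' Ω n H) < 1 := by
  have f1 := fin_quot hn
  let _ : Fintype (RR ⧸ sp n) := Fintype.ofFinite _
  rw [Sv_eq, Sv_eq, ← Finset.sum_sub_distrib]
  refine v_sum_lt _ _ fun x _ => ?_
  rw [← mul_sub]
  rcases hH x.out with h3 | h3
  · rw [h3, zero_mul, map_zero]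
    exact zero_lt_one
  · rw [h3, one_mul]
    exact hC n x.out h1 (hH' _ (by rw [h3]; exact one_ne_zero)) h2

lemma aR_pr : Prime aR := prime_of_nR (p := 2) Nat.prime_two (by rw [nR_aR]; rfl)

lemma aR_bN : ¬ aR ∣ bN := by
  intro h
  have h1 : aR ∣ 1 := by
    have h2 : (1 : RR) = aR - bN := by unfold bN; ring
    rw [h2]
    exact dvd_sub dvd_rfl h
  exact aR_nu (isUnit_of_dvd_one h1)

lemma bN_aR : ¬ bN ∣ aR := by
  intro h
  have h1 : bN ∣ 1 := by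
    have h2 : (1 : RR) = aR - bN := by unfold bN; ring
    rw [h2]
    exact dvd_sub h dvd_rfl
  exact bN_pr.not_isUnit (isUnit_of_dvd_one h1)

lemma PX.aR {x : RR} (h : PX x) : ¬ Pool.Agent.Y698.aR ∣ x := by
  intro h1
  have h2 := h.odd.isUnit_of_dvd' aR_dvd h1
  exact aR_pr.not_isUnit h2

lemma aR_prod {ι : Type} {S : Finset ι} {π : ι → RR} (hS : FX S π) : ¬ aR ∣ ∏ i ∈ S, π i := by
  intro h
  obtain ⟨i, hi, h1⟩ := (Prime.dvd_finsetProd_iff aR_pr _).1 h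
  exact PX.aR (hS.pd i hi) h1

lemma prod_two {ι : Type} {S : Finset ι} {π : ι → RR} (hS : FX S π) (hne : S.Nonempty) :
    ¬ (∏ i ∈ S, π i) ∣ 2 := by
  intro h
  obtain ⟨i, hi⟩ := hne
  have h1 : π i ∣ 2 := (Finset.dvd_prod_of_mem _ hi).trans h
  exact (hS.pd i hi).pr.not_isUnit ((hS.pd i hi).odd.isUnit_of_dvd' h1 dvd_rfl)

lemma bN2 : ¬ bN ^ 2 ∣ 2 := by
  intro h
  have h1 : (2 : RR) = bN * -aR := by
    unfold bN
    linear_combination aR_sq
  rw [h1, pow_two] at h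
  have h2 : bN ∣ -aR := (mul_dvd_mul_iff_left bN_pr.ne_zero).1 h
  exact bN_aR ((dvd_neg).1 h2)

lemma hc_prod_val {ι : Type} (S : Finset ι) (π : ι → RR) (x : RR) :
    (∏ i ∈ S, hc (π i) x = 0 ∨ ∏ i ∈ S, hc (π i) x = 1) := by
  classical
  induction S using Finset.induction_on with
  | empty => right; simp
  | insert i S hi ih =>
    rw [Finset.prod_insert hi]
    rcases (hc_val (π i) x).1 with h | h <;> rcases ih with h' | h' <;> rw [h, h'] <;> norm_num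

lemma hc_cop {ι : Type} {S : Finset ι} {π : ι → RR} (hS : FX S π) (x : RR)
    (h : ∏ i ∈ S, hc (π i) x ≠ 0) : IsCoprime x (∏ i ∈ S, π i) := by
  refine IsCoprime.prod_right fun i hi => ?_
  have h1 : hc (π i) x ≠ 0 := Finset.prod_ne_zero_iff.1 h i hi
  have h2 : x ∉ sp (π i) := fun h3 => h1 ((hc_val (π i) x).2 h3)
  rw [Ideal.mem_span_singleton] at h2
  exact (((hS.pd i hi).pr.irreducible.coprime_iff_not_dvd).2 h2).symm

/-- the first congruence -/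
theorem C1 (hC : Con v Ω F F') {ι : Type} {S : Finset ι} {π : ι → RR} (hS : FX S π)
    (hne : S.Nonempty) :
    v (Sv F Ω (∏ i ∈ S, π i) (fun m => ∏ i ∈ S, hc (π i) m) -
      Sv F' Ω (∏ i ∈ S, π i) (fun m => ∏ i ∈ S, hc (π i) m)) < 1 :=
  Con_Sv hC (prod_ne hS) (aR_prod hS) (prod_two hS hne) (fun x => hc_prod_val S π x)
    (fun x h => hc_cop hS x h)

lemma psi_val {k : ℕ} {ψ : RR → ℂ} (hψ : Chb k ψ) (x : RR) :
    ((ψ x + tr bN x) / 2 = 0 ∨ (ψ x + tr bN x) / 2 = 1) ∧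
      ((ψ x + tr bN x) / 2 ≠ 0 → ¬ bN ∣ x) := by
  by_cases h : bN ∣ x
  · have h1 : tr bN x = 0 := if_pos (Ideal.mem_span_singleton.2 h)
    rw [hψ.zero x h, h1]
    norm_num
  · have h1 : tr bN x = 1 := if_neg (fun h' => h (Ideal.mem_span_singleton.1 h'))
    refine ⟨?_, fun _ => h⟩
    rcases hψ.sgn x h with h2 | h2 <;> rw [h2, h1] <;> norm_num

/-- the second congruence -/
theorem C2 (hC : Con v Ω F F') {ι : Type} {S : Finset ι} {π : ι → RR} (hS : FX S π)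
    {k : ℕ} (hk : 2 ≤ k) {ψ : RR → ℂ} (hψ : Chb k ψ) :
    v (Sv F Ω (bN ^ k * ∏ i ∈ S, π i) (Hf ψ π S) -
      Sv F' Ω (bN ^ k * ∏ i ∈ S, π i) (Hf ψ π S)) < 1 := by
  refine Con_Sv hC (mul_ne_zero (pow_ne_zero _ bN_pr.ne_zero) (prod_ne hS)) ?_ ?_ ?_ ?_
  · intro h
    rcases aR_pr.dvd_or_dvd h with h1 | h1
    · exact aR_bN (aR_pr.dvd_of_dvd_pow h1)
    · exact aR_prod hS h1
  · intro h
    exact bN2 ((pow_dvd_pow bN hk).trans ((Dvd.intro _ rfl).trans h))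
  · intro x
    unfold Hf
    rcases (psi_val hψ x).1 with h | h <;> rcases hc_prod_val S π x with h' | h' <;>
      rw [h, h'] <;> norm_num
  · intro x h
    unfold Hf at h
    have h1 := (psi_val hψ x).2 (left_ne_zero_of_mul h)
    have h2 := hc_cop hS x (right_ne_zero_of_mul h)
    refine IsCoprime.mul_right ?_ h2
    exact ((bN_pr.irreducible.coprime_iff_not_dvd).2 h1).symm.pow_right

/-! ### the residues -/

/-- the residues of the Euler factors -/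
structure EU (v : Valuation ℂ Γ) (ε : RR → ℂ) (lε : RR → ZMod 2) : Prop where
  eu : ∀ (x : RR) (κ : ℂ), N1 x → (κ = 1 ∨ κ = -1) →
    Rd v (((x : ℂ) * ε x - κ) / 2) (lε x + lg κ)

lemma EU.pw {lε : RR → ZMod 2} (t2 : v 2 < 1) (h : EU v ε lε) : Rd v (bN * ε bN) 1 := by
  have h1 := h.eu bN 1 bN_n1 (Or.inl rfl)
  have h2 : v (2 * (((bN : ℂ) * ε bN - 1) / 2)) < 1 := v_mul_lt' t2 h1.le
  rw [Rd.one_iff]
  have e : (2 : ℂ) * (((bN : ℂ) * ε bN - 1) / 2) = bN * ε bN - 1 := by ring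
  rwa [e] at h2

lemma EU_one (hv : v al < 1) : EU v (fun _ => 1) (fun _ => 0) := by
  refine ⟨fun x κ hx hκ => ?_⟩
  rw [zero_add, mul_one]
  exact Rd_euler hv hx hκ

lemma EU_sgl (hv : v al < 1) : EU v sgl lam := by
  refine ⟨fun x κ hx hκ => ?_⟩
  unfold sgl lam
  by_cases h : aR ^ 3 ∣ x - 1
  · rw [if_pos h, if_pos h, zero_add, mul_one]
    exact Rd_euler hv hx hκ
  · rw [if_neg h, if_neg h]
    have t2 := v_two_lt hv
    have hκ' : -κ = 1 ∨ -κ = -1 := by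
      rcases hκ with rfl | rfl
      · exact Or.inr rfl
      · left; norm_num
    have h1 := Rd.neg t2 (Rd_euler hv hx hκ')
    have h2 : lg (-κ) = 1 + lg κ := by
      have := lg_mul (z := -1) (w := κ) (Or.inr rfl) hκ
      rw [neg_one_mul, lg_neg_one] at this
      exact this
    rw [h2] at h1
    convert h1 using 1
    ring

lemma lam_bN : lam bN = 1 := by
  unfold lam
  rw [if_neg]
  rintro ⟨c, hc⟩
  have h1 : aR ^ 2 * 1 = aR ^ 2 * (aR * c) := by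
    have := bN_sq
    linear_combination hc - this
  have h2 := mul_left_cancel₀ (pow_ne_zero 2 aR_pr.ne_zero) h1
  exact aR_nu (IsUnit.of_mul_eq_one c h2.symm)

lemma Rd.pow1 {z : ℂ} (h : Rd v z 1) (k : ℕ) : Rd v (z ^ k) 1 := by
  induction k with
  | zero => rw [pow_zero]; exact Rd.one
  | succ k ih =>
    have := Rd.mul ih h
    rwa [one_mul, ← pow_succ] at this

variable {ι : Type} [DecidableEq ι]

/-- the products of the Euler factors -/
lemma R1 {lε : RR → ZMod 2} (h : EU v ε lε) {S : Finset ι} {π : ι → RR} (hS : FX S π)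
    {m : ι → ι → ZMod 2} (hm : ∀ i ∈ S, ∀ j ∈ S, i ≠ j → m i j = lg (sy (π j) (π i)))
    {c : ι → ZMod 2} (hc : ∀ i ∈ S, lε (π i) = c i) {A : Finset ι} (hA : A ⊆ S) :
    Rd v (∏ i ∈ S \ A, (((π i : ℂ) * ε (π i) - ∏ j ∈ A, sy (π j) (π i)) / 2))
      (∏ i ∈ S \ A, (c i + ∑ j ∈ A, m i j)) := by
  refine Rd.prod fun i hi => ?_
  rw [Finset.mem_sdiff] at hi
  have h7 := sgn_prod (s := A) (f := fun j => sy (π j) (π i)) fun j hj => sy_sgn
    (hS.ne i hi.1 j (hA hj) fun h => hi.2 (h ▸ hj))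
  have h8 : ∑ j ∈ A, m i j = lg (∏ j ∈ A, sy (π j) (π i)) := by
    rw [h7.2]
    exact Finset.sum_congr rfl fun j hj => hm i hi.1 j (hA hj) fun h => hi.2 (h ▸ hj)
  rw [h8, ← hc i hi.1]
  exact h.eu _ _ (hS.pd i hi.1).n1 h7.1

lemma R2 {lε : RR → ZMod 2} (h : EU v ε lε) {S : Finset ι} {π : ι → RR} (hS : FX S π)
    {m : ι → ι → ZMod 2} (hm : ∀ i ∈ S, ∀ j ∈ S, i ≠ j → m i j = lg (sy (π j) (π i)))
    {k : ℕ} {ψ : RR → ℂ} (hψ : Chb k ψ)
    {c : ι → ZMod 2} (hc : ∀ i ∈ S, lε (π i) + lg (ψ (π i)) = c i) {A : Finset ι} (hA : A ⊆ S) :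
    Rd v (∏ i ∈ S \ A, (((π i : ℂ) * ε (π i) - ψ (π i) * ∏ j ∈ A, sy (π j) (π i)) / 2))
      (∏ i ∈ S \ A, (c i + ∑ j ∈ A, m i j)) := by
  refine Rd.prod fun i hi => ?_
  rw [Finset.mem_sdiff] at hi
  have h7 := sgn_prod (s := A) (f := fun j => sy (π j) (π i)) fun j hj => sy_sgn
    (hS.ne i hi.1 j (hA hj) fun h => hi.2 (h ▸ hj))
  have h8 : ∑ j ∈ A, m i j = lg (∏ j ∈ A, sy (π j) (π i)) := by
    rw [h7.2]
    exact Finset.sum_congr rfl fun j hj => hm i hi.1 j (hA hj) fun h => hi.2 (h ▸ hj)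
  have h9 := hψ.sgn (π i) (PX.bN (hS.pd i hi.1))
  rw [h8, ← hc i hi.1, add_assoc, ← lg_mul h9 h7.1]
  exact h.eu _ _ (hS.pd i hi.1).n1 (sgn_mul h9 h7.1)

lemma R3 (t2 : v 2 < 1) {lε : RR → ZMod 2} (h : EU v ε lε) {A : Finset ι} {π : ι → RR}
    (hA : FX A π) {lb : ι → ZMod 2} (hlb : ∀ i ∈ A, lb i = lg (sy (π i) bN)) {z : ℂ} {a : ZMod 2}
    (hz : Rd v z a) (k : ℕ) :
    Rd v ((bN * ε bN) ^ (k - 1) * (((bN * ε bN - ∏ j ∈ A, sy (π j) bN) / 2) * z))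
      ((lε bN + ∑ j ∈ A, lb j) * a) := by
  have h7 := sgn_prod (s := A) (f := fun j => sy (π j) bN) fun j hj => sy_sgn
    (bN_notin (hA.pd j hj))
  have h8 : ∑ j ∈ A, lb j = lg (∏ j ∈ A, sy (π j) bN) := by
    rw [h7.2]
    exact Finset.sum_congr rfl fun j hj => hlb j hj
  rw [h8]
  have h9 := Rd.mul (Rd.pow1 (h.pw t2) (k - 1)) (Rd.mul (h.eu bN _ bN_n1 h7.1) hz)
  rwa [one_mul] at h9

/-- the extraction of the last term -/
lemma ext (t2 : v 2 < 1) {S : Finset ι} (T : Finset ι → ℂ) (r : Finset ι → ZMod 2) {D : ℂ}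
    {d : ZMod 2} (hs : ∑ A ∈ S.powerset, T A = D) (hD : Rd v D d)
    (hT : ∀ A, A ⊂ S → Rd v (T A) (r A)) (hr : ∑ A ∈ S.powerset, r A = d) :
    Rd v (T S) (r S) := by
  rw [← Finset.add_sum_erase _ _ (Finset.mem_powerset_self S)] at hs hr
  have h1 : T S = D + -∑ A ∈ S.powerset.erase S, T A := by rw [← hs]; ring
  have h2 : r S = d + ∑ A ∈ S.powerset.erase S, r A := by
    rw [← hr, add_assoc, two_self, add_zero]
  rw [h1, h2]
  refine Rd.add t2 hD (Rd.neg t2 (Rd.sum t2 fun A hA => hT A ?_))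
  rw [Finset.mem_erase, Finset.mem_powerset] at hA
  exact hA.2.ssubset_of_ne hA.1

end Pool.Agent.L0h98.EV
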