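import Pool.Agent.L0h1.EV.Abs
import Pool.Agent.L0h98.EV.Phi

/-!
# Project EV: the weighted sums of a function with the distribution relations
-/

set_option autoImplicit false
set_option linter.unusedSectionVars false

namespace Pool.Agent.L0h98.EV

open Pool.Agent.Y698 Pool.Agent.Y698.SG Pool.Agent.L0h4.TW Pool.Agent.L0h23.ED Pool.Agent.L0h1.EV
open H667R3 Pool.Agent.W192.HK Pool.Agent.TH936.CM Pool.Agent.TH936.PU

variable {L : PeriodPair} {Ω : ℂ} {Γ : Type} [LinearOrderedCommGroupWithZero Γ]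
  {v : Valuation ℂ Γ} {F F' : ℂ → ℂ} {ε : RR → ℂ} {s : ℂ}

lemma Sv_eq (F : ℂ → ℂ) (n : RR) [Fintype (RR ⧸ sp n)] (φ : RR → ℂ) :
    Sv F Ω n φ = ∑ x : RR ⧸ sp n, φ x.out * F (Ω * x.out / (n : ℂ)) :=
  finsum_eq_sum_of_fintype _

lemma Sv_term (hL : IsLat L RR Ω) (hF : DF L Ω F ε s) {n : RR} (hn : n ≠ 0)
    {φ : RR → ℂ} (hφ : Pe n φ) {x y : RR} (h : x - y ∈ sp n) :
    φ x * F (Ω * x / (n : ℂ)) = φ y * F (Ω * y / (n : ℂ)) := by
  rw [hφ _ _ h]
  congr 1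
  apply hF.per
  have h1 := (div_mem_iff hL hn (x - y)).2 h
  convert h1 using 1
  push_cast
  ring

theorem Sv_dist (hL : IsLat L RR Ω) (hF : DF L Ω F ε s) {n q : RR} (hn0 : n ≠ 0)
    (hq0 : q ≠ 0) (hq : N1 q) {φ : RR → ℂ}
    (hφ : Pe n φ) : Sv F Ω (q * n) φ = q * ε q * Sv F Ω n φ := by
  have hqn0 : q * n ≠ 0 := mul_ne_zero hq0 hn0
  have f1 := fin_quot hn0
  have f2 := fin_quot hq0
  have f3 := fin_quot hqn0
  let _ : Fintype (RR ⧸ sp n) := Fintype.ofFinite _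
  let i2 : Fintype (RR ⧸ sp q) := Fintype.ofFinite _
  let _ : Fintype (RR ⧸ sp (q * n)) := Fintype.ofFinite _
  have hq0' := coe_ne hq0
  have hn0' := coe_ne hn0
  have hφ' : Pe (q * n) φ := hφ.mono (Dvd.intro_left q rfl)
  rw [Sv_eq, Sv_eq]
  have hb := bij_mul (R := RR) (a := q) (f := n) hn0
  rw [sum_rep _ hb (fun x : RR => φ x * F (Ω * x / ((q * n : RR) : ℂ)))
    (fun x y h => Sv_term hL hF hqn0 hφ' h), Fintype.sum_prod_type, Finset.mul_sum]
  refine Finset.sum_congr rfl fun y _ => ?_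
  have h1 := hF.dist q hq i2 _ (Tor.of hL hqn0 y.out)
  have h2 : ∀ t : RR ⧸ sp q, φ (y.out + n * t.out) = φ y.out := by
    intro t
    apply hφ
    rw [add_sub_cancel_left, Ideal.mem_span_singleton']
    exact ⟨t.out, mul_comm _ _⟩
  simp only [h2]
  rw [← Finset.mul_sum]
  have e1 : ∀ t : RR ⧸ sp q, Ω * ((y.out + n * t.out : RR) : ℂ) / ((q * n : RR) : ℂ) =
      Ω * (y.out : RR) / ((q * n : RR) : ℂ) + Ω * t.out / q := by
    intro t
    push_cast
    field_simp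
  simp only [e1]
  rw [h1]
  have e2 : (q : ℂ) * (Ω * (y.out : RR) / ((q * n : RR) : ℂ)) = Ω * (y.out : RR) / n := by
    push_cast
    field_simp
  rw [e2]
  ring

open Classical in
/-- the multiples of `q` -/
theorem Sv_mult (hL : IsLat L RR Ω) (hF : DF L Ω F ε s) {n q : RR} (hn0 : n ≠ 0)
    (hq0 : q ≠ 0) {φ : RR → ℂ} (hφ : Pe n φ) :
    Sv F Ω (q * n) (fun m => if m ∈ sp q then φ m else 0) =
      Sv F Ω n (fun m => φ (q * m)) := by
  have hqn0 : q * n ≠ 0 := mul_ne_zero hq0 hn0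
  have f1 := fin_quot hn0
  have f3 := fin_quot hqn0
  let _ : Fintype (RR ⧸ sp n) := Fintype.ofFinite _
  let _ : Fintype (RR ⧸ sp (q * n)) := Fintype.ofFinite _
  have hφ' : Pe (q * n) φ := hφ.mono (Dvd.intro_left q rfl)
  have hq0' : (q : ℂ) ≠ 0 := coe_ne hq0
  have hn0' : (n : ℂ) ≠ 0 := coe_ne hn0
  rw [Sv_eq, Sv_eq]
  -- the injection
  set g : RR ⧸ sp n → RR ⧸ sp (q * n) := fun y => Ideal.Quotient.mk _ (q * y.out) with hg
  have hginj : Function.Injective g := by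
    intro y y' h
    have h1 : q * y.out - q * y'.out ∈ sp (q * n) := by
      rw [← Ideal.Quotient.mk_eq_mk_iff_sub_mem]
      exact h
    rw [Ideal.mem_span_singleton'] at h1
    obtain ⟨b, hb⟩ := h1
    apply mk_eq
    rw [Ideal.mem_span_singleton']
    refine ⟨b, ?_⟩
    apply mul_left_cancel₀ hq0
    linear_combination hb
  have hterm : ∀ y : RR ⧸ sp n, (if (g y).out ∈ sp q then φ (g y).out else 0) *
      F (Ω * (g y).out / ((q * n : RR) : ℂ)) =
      φ (q * y.out) * F (Ω * y.out / (n : ℂ)) := by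
    intro y
    have h1 : (g y).out - q * y.out ∈ sp (q * n) := by
      have := neg_mem (out_mk (sp (q * n)) (q * y.out))
      rwa [neg_sub] at this
    have h2 : (g y).out ∈ sp q := by
      have h3 : (g y).out - q * y.out ∈ sp q := by
        rw [Ideal.mem_span_singleton'] at h1 ⊢
        obtain ⟨b, hb⟩ := h1
        exact ⟨b * n, by linear_combination hb⟩
      have h4 := add_mem h3 (Ideal.mul_mem_right y.out (sp q) (Ideal.mem_span_singleton_self q))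
      rwa [sub_add_cancel] at h4
    rw [if_pos h2, Sv_term hL hF hqn0 hφ' h1]
    congr 2
    push_cast
    field_simp
  rw [← Finset.sum_congr rfl (fun y _ => hterm y)]
  rw [← Finset.sum_image (s := Finset.univ) (g := g) (f := fun x : RR ⧸ sp (q * n) =>
    (if x.out ∈ sp q then φ x.out else 0) *
      F (Ω * x.out / ((q * n : RR) : ℂ))) (fun a _ b _ h => hginj h)]
  symm
  refine Finset.sum_subset (Finset.subset_univ _) fun x _ hx => ?_
  rw [if_neg, zero_mul]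
  intro hd
  apply hx
  rw [Ideal.mem_span_singleton'] at hd
  obtain ⟨c, hc⟩ := hd
  rw [Finset.mem_image]
  refine ⟨Ideal.Quotient.mk _ c, Finset.mem_univ _, ?_⟩
  show Ideal.Quotient.mk _ (q * (Ideal.Quotient.mk (sp n) c).out) = x
  conv_rhs => rw [← Ideal.Quotient.mk_out x]
  rw [Ideal.Quotient.mk_eq_mk_iff_sub_mem]
  have h1 := out_mk (sp n) c
  rw [Ideal.mem_span_singleton'] at h1
  obtain ⟨b, hb⟩ := h1
  rw [Ideal.mem_span_singleton']
  exact ⟨-b, by linear_combination -q * hb - hc⟩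

lemma Sv_smul {n : RR} (hn : n ≠ 0) (c : ℂ) (φ : RR → ℂ) :
    Sv F Ω n (fun m => c * φ m) = c * Sv F Ω n φ := by
  have f1 := fin_quot hn
  let _ : Fintype (RR ⧸ sp n) := Fintype.ofFinite _
  rw [Sv_eq, Sv_eq, Finset.mul_sum]
  exact Finset.sum_congr rfl fun x _ => by ring

lemma Sv_sum {n : RR} (hn : n ≠ 0) {ι : Type*} (s : Finset ι) (φ : ι → RR → ℂ) :
    Sv F Ω n (fun m => ∑ i ∈ s, φ i m) = ∑ i ∈ s, Sv F Ω n (φ i) := by
  have f1 := fin_quot hn
  let _ : Fintype (RR ⧸ sp n) := Fintype.ofFinite _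
  simp only [Sv_eq]
  rw [Finset.sum_comm]
  exact Finset.sum_congr rfl fun x _ => by rw [Finset.sum_mul]

lemma Sv_add {n : RR} (hn : n ≠ 0) (φ φ' : RR → ℂ) :
    Sv F Ω n (fun m => φ m + φ' m) = Sv F Ω n φ + Sv F Ω n φ' := by
  have f1 := fin_quot hn
  let _ : Fintype (RR ⧸ sp n) := Fintype.ofFinite _
  simp only [Sv_eq]
  rw [← Finset.sum_add_distrib]
  exact Finset.sum_congr rfl fun x _ => by ring

open Classical in
/-- removing a prime -/
theorem Sv_rem (hL : IsLat L RR Ω) (hF : DF L Ω F ε s) {n q : RR} (hn0 : n ≠ 0)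
    (hq0 : q ≠ 0) (hq : N1 q) {κ : ℂ} {φ : RR → ℂ}
    (hφ : Pe n φ) (hφq : ∀ m : RR, φ (q * m) = κ * φ m) :
    Sv F Ω (q * n) (fun m => if m ∈ sp q then 0 else φ m) = (q * ε q - κ) * Sv F Ω n φ := by
  have hqn0 : q * n ≠ 0 := mul_ne_zero hq0 hn0
  have f1 := fin_quot hn0
  let _ : Fintype (RR ⧸ sp n) := Fintype.ofFinite _
  have f3 := fin_quot hqn0
  let _ : Fintype (RR ⧸ sp (q * n)) := Fintype.ofFinite _
  have h1 := Sv_dist hL hF hn0 hq0 hq hφ
  have h2 := Sv_mult hL hF hn0 hq0 hφ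
  simp only [hφq] at h2
  have h3 : Sv F Ω (q * n) (fun m => if m ∈ sp q then 0 else φ m) =
      Sv F Ω (q * n) φ - Sv F Ω (q * n) (fun m => if m ∈ sp q then φ m else 0) := by
    rw [Sv_eq, Sv_eq, Sv_eq, ← Finset.sum_sub_distrib]
    refine Finset.sum_congr rfl fun x _ => ?_
    split_ifs <;> ring
  rw [h3, h1, h2, Sv_smul hn0]
  ring

/-- removing several primes -/
theorem Sv_rems {ι : Type} (hL : IsLat L RR Ω) (hF : DF L Ω F ε s) {n : RR} (hn : n ≠ 0)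
    {φ : RR → ℂ} (hφ : Pe n φ) {π : ι → RR} (κ : ι → ℂ) (B : Finset ι) (hB : FX B π)
    (hκ : ∀ i ∈ B, Mu (π i) φ (κ i)) :
    Sv F Ω ((∏ i ∈ B, π i) * n) (fun m => φ m * ∏ i ∈ B, tr (π i) m) =
      (∏ i ∈ B, ((π i : ℂ) * ε (π i) - κ i)) * Sv F Ω n φ := by
  classical
  induction B using Finset.induction_on with
  | empty => simp
  | insert q B hq ih =>
    have hBs : FX B π := hB.mono (Finset.subset_insert _ _)
    have ih' := ih hBs fun p hp => hκ p (Finset.mem_insert_of_mem hp)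
    have h1 := hB.pd q (Finset.mem_insert_self _ _)
    rw [Finset.prod_insert hq, mul_assoc, Finset.prod_insert hq, mul_assoc, ← ih']
    have hBg : (∏ i ∈ B, π i) * n ≠ 0 := mul_ne_zero (prod_ne hBs) hn
    have e : (fun m : RR => φ m * ∏ i ∈ insert q B, tr (π i) m) =
        fun m : RR => if m ∈ sp (π q) then 0 else φ m * ∏ i ∈ B, tr (π i) m := by
      funext m
      rw [Finset.prod_insert hq]
      unfold tr
      split_ifs <;> ring
    rw [e]
    have hne : ∀ p ∈ B, p ≠ q := fun p hp h => hq (h ▸ hp)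
    refine Sv_rem hL hF hBg h1.ne h1.n1 ?_ ?_
    · exact (hφ.mono (Dvd.intro_left _ rfl)).mul ((Pe.prod fun p _ => tr_per (π p)).mono
        (Dvd.intro _ rfl))
    · have h2 : Mu (π q) (fun m => φ m * ∏ i ∈ B, tr (π i) m) (κ q * ∏ i ∈ B, (1 : ℂ)) := by
        refine (hκ q (Finset.mem_insert_self _ _)).mul (Mu.prod fun p hp m => ?_)
        rw [one_mul]
        exact tr_mul (hBs.pd p hp).pr (hB.ne q (Finset.mem_insert_self _ _) p
          (Finset.mem_insert_of_mem hp) (hne p hp).symm) m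
      intro m
      have h3 := h2 m
      rw [Finset.prod_const_one, mul_one] at h3
      exact h3

/-- the sum over the subsets -/
theorem Sv_subsets {ι : Type} [DecidableEq ι] (hL : IsLat L RR Ω) (hF : DF L Ω F ε s)
    {n0 : RR} (hn0 : n0 ≠ 0) {φ0 : RR → ℂ} (hφ0 : Pe n0 φ0) {π : ι → RR} {κ0 : ι → ℂ}
    (S : Finset ι) (hS : FX S π) (hκ : ∀ i ∈ S, Mu (π i) φ0 (κ0 i)) :
    ∑ A ∈ S.powerset, (∏ i ∈ S \ A, ((π i : ℂ) * ε (π i) - κ0 i * ∏ j ∈ A, sy (π j) (π i))) *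
      Sv F Ω (n0 * ∏ i ∈ A, π i) (fun m => φ0 m * ∏ i ∈ A, sy (π i) m) =
    2 ^ S.card * Sv F Ω (n0 * ∏ i ∈ S, π i) (fun m => φ0 m * ∏ i ∈ S, hc (π i) m) := by
  have hSg := mul_ne_zero hn0 (prod_ne hS)
  have h1 : ∀ A ∈ S.powerset,
      (∏ i ∈ S \ A, ((π i : ℂ) * ε (π i) - κ0 i * ∏ j ∈ A, sy (π j) (π i))) *
      Sv F Ω (n0 * ∏ i ∈ A, π i) (fun m => φ0 m * ∏ i ∈ A, sy (π i) m) =
      Sv F Ω (n0 * ∏ i ∈ S, π i)
        (fun m => φ0 m * ((∏ i ∈ A, sy (π i) m) * ∏ i ∈ S \ A, tr (π i) m)) := by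
    intro A hA
    rw [Finset.mem_powerset] at hA
    have hAg := mul_ne_zero hn0 (prod_ne (hS.mono hA))
    rw [← Sv_rems hL hF hAg ?_ _ (S \ A) (hS.mono Finset.sdiff_subset) ?_]
    · have e1 : (∏ i ∈ S \ A, π i) * (n0 * ∏ i ∈ A, π i) = n0 * ∏ i ∈ S, π i := by
        rw [← Finset.prod_sdiff hA]
        ring
      rw [e1]
      congr 1
      funext m
      ring
    · exact (hφ0.mono (Dvd.intro _ rfl)).mul ((Pe.prod fun p _ => sy_per (π p)).mono
        (Dvd.intro_left _ rfl))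
    · intro i hi
      rw [Finset.mem_sdiff] at hi
      exact (hκ i hi.1).mul (Mu.prod (q := π i) (S := A) (f := fun j => sy (π j))
        (κ := fun j => sy (π j) (π i)) fun j hj m => (hS.pd j (hA hj)).mul _ _)
  rw [Finset.sum_congr rfl h1, ← Sv_sum hSg, ← Sv_smul hSg]
  congr 1
  funext m
  have h2 : ∏ i ∈ S, (sy (π i) m + tr (π i) m) =
      ∑ A ∈ S.powerset, (∏ i ∈ A, sy (π i) m) * ∏ i ∈ S \ A, tr (π i) m :=
    Finset.prod_add _ _ _
  have h3 : ∏ i ∈ S, (sy (π i) m + tr (π i) m) = 2 ^ S.card * ∏ i ∈ S, hc (π i) m := by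
    rw [← Finset.prod_const, ← Finset.prod_mul_distrib]
    refine Finset.prod_congr rfl fun q _ => ?_
    unfold hc
    ring
  rw [← Finset.mul_sum, ← h2, h3]
  ring

/-! ### the element `bN` -/

lemma bN_eq : bN = -bR := by
  unfold bN bR
  ring

lemma nR_bN : nR bN = 2 := by
  rw [bN_eq, nR_neg, nR_bR]

lemma bN_pr : Prime bN := prime_of_nR (p := 2) Nat.prime_two (by rw [nR_bN]; rfl)

lemma bN_sq : bN = 1 + aR ^ 2 := by
  unfold bN
  linear_combination -aR_sq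

lemma bN_n1 : N1 bN := ⟨1, by rw [mul_one]; exact bN_sq⟩

lemma bN_dvd : bN ∣ 2 := by
  refine ⟨-aR, ?_⟩
  unfold bN
  linear_combination aR_sq

lemma aR_dvd : aR ∣ 2 := by
  refine ⟨1 - aR, ?_⟩
  linear_combination aR_sq

lemma bN_coe : (bN : ℂ) = al - 1 := by
  unfold bN
  push_cast
  rw [aR_coe]

lemma bN_notin {x : RR} (h : PX x) : bN ∉ sp x := by
  intro h1
  rw [Ideal.mem_span_singleton] at h1
  have h2 := h.odd.isUnit_of_dvd' (h1.trans bN_dvd) dvd_rfl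
  exact h.pr.not_isUnit h2

lemma PX.bN {x : RR} (h : PX x) : ¬ Pool.Agent.L0h1.EV.bN ∣ x := by
  intro h1
  have h2 := h.odd.isUnit_of_dvd' bN_dvd h1
  exact bN_pr.not_isUnit h2

/-- iterated distribution -/
theorem Sv_pow (hL : IsLat L RR Ω) (hF : DF L Ω F ε s) {n q : RR} (hn0 : n ≠ 0)
    (hq0 : q ≠ 0) (hq : N1 q) {φ : RR → ℂ} (hφ : Pe n φ) (k : ℕ) :
    Sv F Ω (q ^ k * n) φ = (q * ε q) ^ k * Sv F Ω n φ := by
  induction k with
  | zero => simp
  | succ k ih =>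
    have e1 : q ^ (k + 1) * n = q * (q ^ k * n) := by ring
    rw [e1, Sv_dist hL hF (mul_ne_zero (pow_ne_zero _ hq0) hn0) hq0 hq
      (hφ.mono (Dvd.intro_left _ rfl)), ih]
    ring

/-- the sum with the trivial character modulo `bN` -/
theorem Sv_tr {ι : Type} (hL : IsLat L RR Ω) (hF : DF L Ω F ε s) {π : ι → RR} (A : Finset ι)
    (hA : FX A π) {k : ℕ} (hk : 1 ≤ k) :
    Sv F Ω (bN ^ k * ∏ i ∈ A, π i) (fun m => tr bN m * ∏ i ∈ A, sy (π i) m) =
      (bN * ε bN) ^ (k - 1) * ((bN * ε bN - ∏ j ∈ A, sy (π j) bN) * Ga F Ω π A) := by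
  classical
  have h0 := prod_ne hA
  have hb0 := bN_pr.ne_zero
  have hφ : Pe (∏ i ∈ A, π i) (fun m => ∏ i ∈ A, sy (π i) m) := Pe.prod fun p _ => sy_per (π p)
  have e1 : bN ^ k * ∏ i ∈ A, π i = bN ^ (k - 1) * (bN * ∏ i ∈ A, π i) := by
    obtain ⟨j, rfl⟩ : ∃ j, k = j + 1 := ⟨k - 1, by omega⟩
    rw [Nat.add_sub_cancel]
    ring
  have e2 : (fun m : RR => tr bN m * ∏ i ∈ A, sy (π i) m) =
      fun m => if m ∈ sp bN then 0 else ∏ i ∈ A, sy (π i) m := by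
    funext m
    unfold tr
    split_ifs <;> ring
  rw [e1, Sv_pow hL hF (mul_ne_zero hb0 h0) hb0 bN_n1
    (((tr_per bN).mono (Dvd.intro _ rfl)).mul (hφ.mono (Dvd.intro_left _ rfl))), e2,
    Sv_rem hL hF h0 hb0 bN_n1 hφ (κ := ∏ j ∈ A, sy (π j) bN)]
  · rfl
  · intro m
    rw [← Finset.prod_mul_distrib]
    exact Finset.prod_congr rfl fun j hj => (hA.pd j hj).mul _ _

/-- **E1** -/
theorem E1 {ι : Type} [DecidableEq ι] (hL : IsLat L RR Ω) (hF : DF L Ω F ε s) {π : ι → RR}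
    (S : Finset ι) (hS : FX S π) :
    ∑ A ∈ S.powerset, (∏ i ∈ S \ A, (((π i : ℂ) * ε (π i) - ∏ j ∈ A, sy (π j) (π i)) / 2)) *
      (Ga F Ω π A / 2 ^ A.card) =
    Sv F Ω (∏ i ∈ S, π i) (fun m => ∏ i ∈ S, hc (π i) m) := by
  have h1 := Sv_subsets hL hF one_ne_zero (φ0 := fun _ => 1) (fun _ _ _ => rfl) (κ0 := fun _ => 1)
    S hS (fun i _ m => by ring)
  simp only [one_mul] at h1
  have h20 : (2 : ℂ) ^ S.card ≠ 0 := pow_ne_zero _ two_ne_zero
  apply mul_left_cancel₀ h20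
  rw [← h1, Finset.mul_sum]
  refine Finset.sum_congr rfl fun A hA => ?_
  rw [Finset.mem_powerset] at hA
  have hcs : S.card = (S \ A).card + A.card := (Finset.card_sdiff_add_card_eq_card hA).symm
  rw [Finset.prod_div_distrib, Finset.prod_const, hcs, pow_add]
  unfold Ga
  field_simp

/-- the function of the second sum -/
noncomputable def Hf {ι : Type} (ψ : RR → ℂ) (π : ι → RR) (S : Finset ι) (m : RR) : ℂ :=
  (ψ m + tr bN m) / 2 * ∏ i ∈ S, hc (π i) m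

/-- **E2** -/
theorem E2 {ι : Type} [DecidableEq ι] (hL : IsLat L RR Ω) (hF : DF L Ω F ε s) {π : ι → RR}
    {k : ℕ} (hk : 1 ≤ k) {ψ : RR → ℂ} (hψ : Chb k ψ) (S : Finset ι) (hS : FX S π) :
    ∑ A ∈ S.powerset,
      (∏ i ∈ S \ A, (((π i : ℂ) * ε (π i) - ψ (π i) * ∏ j ∈ A, sy (π j) (π i)) / 2)) *
      (Gb F Ω k ψ π A / 2 ^ (A.card + 1)) +
    ∑ A ∈ S.powerset,
      (∏ i ∈ S \ A, (((π i : ℂ) * ε (π i) - ∏ j ∈ A, sy (π j) (π i)) / 2)) *
      ((bN * ε bN) ^ (k - 1) * (((bN * ε bN - ∏ j ∈ A, sy (π j) bN) / 2) *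
        (Ga F Ω π A / 2 ^ A.card))) =
    Sv F Ω (bN ^ k * ∏ i ∈ S, π i) (Hf ψ π S) := by
  have hb0 : bN ^ k ≠ 0 := pow_ne_zero _ bN_pr.ne_zero
  have h1 := Sv_subsets hL hF hb0 hψ.per (κ0 := fun i => ψ (π i)) S hS (fun i _ m => hψ.mul _ _)
  have h2 := Sv_subsets hL hF hb0 ((tr_per bN).mono (dvd_pow_self bN (by omega)))
    (κ0 := fun i => 1) S hS (fun i hi m => by
      rw [one_mul]
      refine tr_mul bN_pr ?_ m
      rw [Ideal.mem_span_singleton]
      exact PX.bN (hS.pd i hi))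
  have h20 : (2 : ℂ) ^ (S.card + 1) ≠ 0 := pow_ne_zero _ two_ne_zero
  have hSg := mul_ne_zero hb0 (prod_ne hS)
  have e0 : 2 ^ (S.card + 1) * Sv F Ω (bN ^ k * ∏ i ∈ S, π i) (Hf ψ π S) =
      2 ^ S.card * Sv F Ω (bN ^ k * ∏ i ∈ S, π i) (fun m => ψ m * ∏ i ∈ S, hc (π i) m) +
      2 ^ S.card * Sv F Ω (bN ^ k * ∏ i ∈ S, π i) (fun m => tr bN m * ∏ i ∈ S, hc (π i) m) := by
    rw [← mul_add, ← Sv_add hSg, ← Sv_smul hSg, ← Sv_smul hSg]
    congr 1
    funext m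
    unfold Hf
    ring
  apply mul_left_cancel₀ h20
  rw [e0, ← h1, ← h2, mul_add, Finset.mul_sum, Finset.mul_sum]
  congr 1
  · refine Finset.sum_congr rfl fun A hA => ?_
    rw [Finset.mem_powerset] at hA
    have hcs : S.card = (S \ A).card + A.card := (Finset.card_sdiff_add_card_eq_card hA).symm
    rw [Finset.prod_div_distrib, Finset.prod_const, hcs, pow_succ, pow_add, pow_succ]
    unfold Gb
    field_simp
  · refine Finset.sum_congr rfl fun A hA => ?_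
    rw [Finset.mem_powerset] at hA
    have hcs : S.card = (S \ A).card + A.card := (Finset.card_sdiff_add_card_eq_card hA).symm
    rw [Sv_tr hL hF A (hS.mono hA) hk, Finset.prod_div_distrib, Finset.prod_const, hcs, pow_succ,
      pow_add]
    simp only [one_mul]
    field_simp

end Pool.Agent.L0h98.EV
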